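import Mathlib

/-!
# Latin bitrades whose mates only embed together in abelian groups of exponential order

Rows, columns and symbols are labelled by natural numbers; a triple `(r, c, s)` means that the
symbol `s` stands in the cell `(r, c)`.
-/

namespace Pool.Agent.Run7.h513.Kept.ExponentialGrowth

open Finset

/-- A partial latin square: any two coordinates of a triple determine the third. -/
def IsPLS (P : Finset (ℕ × ℕ × ℕ)) : Prop :=
  (∀ r c s s', (r, c, s) ∈ P → (r, c, s') ∈ P → s = s') ∧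
  (∀ r c c' s, (r, c, s) ∈ P → (r, c', s) ∈ P → c = c') ∧
  (∀ r r' c s, (r, c, s) ∈ P → (r', c, s) ∈ P → r = r')

/-- A latin bitrade: two disjoint nonempty partial latin squares with the same filled cells, the
same symbols in every row and the same symbols in every column. -/
def IsBitrade (W B : Finset (ℕ × ℕ × ℕ)) : Prop :=
  IsPLS W ∧ IsPLS B ∧ W.Nonempty ∧ B.Nonempty ∧ Disjoint W B ∧
  (∀ r c, (∃ s, (r, c, s) ∈ W) ↔ ∃ s, (r, c, s) ∈ B) ∧
  (∀ r s, (∃ c, (r, c, s) ∈ W) ↔ ∃ c, (r, c, s) ∈ B) ∧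
  (∀ c s, (∃ r, (r, c, s) ∈ W) ↔ ∃ r, (r, c, s) ∈ B)

/-- The partial latin square `P` embeds in the abelian group `G`: its rows, its columns and its
symbols can be labelled injectively by elements of `G` so that `α r + β c = γ s` for all
`(r, c, s) ∈ P`. -/
def Embeds (P : Finset (ℕ × ℕ × ℕ)) (G : Type) [AddCommGroup G] : Prop :=
  ∃ α β γ : ℕ → G, Set.InjOn α {r | ∃ c s, (r, c, s) ∈ P} ∧
    Set.InjOn β {c | ∃ r s, (r, c, s) ∈ P} ∧ Set.InjOn γ {s | ∃ r c, (r, c, s) ∈ P} ∧
    ∀ r c s, (r, c, s) ∈ P → α r + β c = γ s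

/-- The orders of the finite abelian groups in which both `W` and `B` embed. -/
def orders (W B : Finset (ℕ × ℕ × ℕ)) : Set ℕ :=
  {N | ∃ (G : Type) (_ : AddCommGroup G), Finite G ∧ Nat.card G = N ∧ Embeds W G ∧ Embeds B G}

/-- The least order of a finite abelian group in which both `W` and `B` embed (to be used when
`orders W B` is nonempty). -/
noncomputable def minOrder (W B : Finset (ℕ × ℕ × ℕ)) : ℕ := sInf (orders W B)

/-! ### the family -/

/-- the filled cells: first row, first column, diagonal -/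
def cells (n : ℕ) : Finset (ℕ × ℕ) :=
  (range (n + 2) ×ˢ range (n + 2)).filter fun p => p.1 = 0 ∨ p.2 = 0 ∨ p.1 = p.2

/-- the successor of the label `j`, the largest one being followed by `0` -/
def nx (n j : ℕ) : ℕ := if j = n + 1 then 0 else j + 1

/-- the symbols of the first mate -/
def w (n : ℕ) (p : ℕ × ℕ) : ℕ := if p.1 = 0 then p.2 else if p.2 = 0 then p.1 else nx n p.1

/-- the symbols of the second mate -/
def b (n : ℕ) (p : ℕ × ℕ) : ℕ :=
  if p.1 = 0 then nx n p.2 else if p.2 = 0 then nx n p.1 else p.1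

/-- the first mate -/
def W (n : ℕ) : Finset (ℕ × ℕ × ℕ) := (cells n).image fun p => (p.1, p.2, w n p)

/-- the second mate -/
def B (n : ℕ) : Finset (ℕ × ℕ × ℕ) := (cells n).image fun p => (p.1, p.2, b n p)

lemma mem_cells {n r c : ℕ} : (r, c) ∈ cells n ↔
    r < n + 2 ∧ c < n + 2 ∧ (r = 0 ∨ c = 0 ∨ r = c) := by
  simp [cells, and_assoc]

lemma mem_W {n r c s : ℕ} : (r, c, s) ∈ W n ↔
    r < n + 2 ∧ c < n + 2 ∧ (r = 0 ∨ c = 0 ∨ r = c) ∧ s = w n (r, c) := by
  unfold W
  rw [mem_image]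
  constructor
  · rintro ⟨⟨r', c'⟩, h, h'⟩
    rw [mem_cells] at h
    simp only [Prod.mk.injEq] at h'
    obtain ⟨rfl, rfl, rfl⟩ := h'
    exact ⟨h.1, h.2.1, h.2.2, rfl⟩
  · rintro ⟨h1, h2, h3, rfl⟩
    exact ⟨(r, c), mem_cells.2 ⟨h1, h2, h3⟩, rfl⟩

lemma mem_B {n r c s : ℕ} : (r, c, s) ∈ B n ↔
    r < n + 2 ∧ c < n + 2 ∧ (r = 0 ∨ c = 0 ∨ r = c) ∧ s = b n (r, c) := by
  unfold B
  rw [mem_image]
  constructor
  · rintro ⟨⟨r', c'⟩, h, h'⟩
    rw [mem_cells] at h
    simp only [Prod.mk.injEq] at h'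
    obtain ⟨rfl, rfl, rfl⟩ := h'
    exact ⟨h.1, h.2.1, h.2.2, rfl⟩
  · rintro ⟨h1, h2, h3, rfl⟩
    exact ⟨(r, c), mem_cells.2 ⟨h1, h2, h3⟩, rfl⟩

lemma card_cells (n : ℕ) : (cells n).card = 3 * n + 4 := by
  induction n with
  | zero => decide
  | succ n ih =>
    have h : cells (n + 1) = insert (0, n + 2) (insert (n + 2, 0) (insert (n + 2, n + 2)
        (cells n))) := by
      ext ⟨r, c⟩
      simp only [mem_insert, mem_cells, Prod.mk.injEq]
      omega
    rw [h, card_insert_of_notMem, card_insert_of_notMem, card_insert_of_notMem, ih]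
    · omega
    · rw [mem_cells]; omega
    · simp only [mem_insert, mem_cells, Prod.mk.injEq]; omega
    · simp only [mem_insert, mem_cells, Prod.mk.injEq]; omega

lemma card_W (n : ℕ) : (W n).card = 3 * n + 4 := by
  unfold W
  rw [card_image_of_injective, card_cells]
  rintro ⟨r, c⟩ ⟨r', c'⟩ h
  simp only [Prod.mk.injEq] at h
  rw [h.1, h.2.1]

lemma pls_W (n : ℕ) : IsPLS (W n) := by
  refine ⟨?_, ?_, ?_⟩
  · intro r c s s' h h'
    rw [mem_W] at h h'
    rw [h.2.2.2, h'.2.2.2]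
  · intro r c c' s h h'
    rw [mem_W] at h h'
    obtain ⟨h1, h2, h3, h4⟩ := h
    obtain ⟨h5, h6, h7, h8⟩ := h'
    simp only [w, nx] at h4 h8
    split_ifs at h4 h8 <;> omega
  · intro r r' c s h h'
    rw [mem_W] at h h'
    obtain ⟨h1, h2, h3, h4⟩ := h
    obtain ⟨h5, h6, h7, h8⟩ := h'
    simp only [w, nx] at h4 h8
    split_ifs at h4 h8 <;> omega

lemma pls_B (n : ℕ) : IsPLS (B n) := by
  refine ⟨?_, ?_, ?_⟩
  · intro r c s s' h h'
    rw [mem_B] at h h'
    rw [h.2.2.2, h'.2.2.2]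
  · intro r c c' s h h'
    rw [mem_B] at h h'
    obtain ⟨h1, h2, h3, h4⟩ := h
    obtain ⟨h5, h6, h7, h8⟩ := h'
    simp only [b, nx] at h4 h8
    split_ifs at h4 h8 <;> omega
  · intro r r' c s h h'
    rw [mem_B] at h h'
    obtain ⟨h1, h2, h3, h4⟩ := h
    obtain ⟨h5, h6, h7, h8⟩ := h'
    simp only [b, nx] at h4 h8
    split_ifs at h4 h8 <;> omega

/-- the label followed by `s` -/
def pv (n s : ℕ) : ℕ := if s = 0 then n + 1 else s - 1

lemma nx_pv {n s : ℕ} (hs : s < n + 2) : nx n (pv n s) = s := by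
  by_cases h : s = 0
  · subst h; simp [nx, pv]
  · have e : pv n s = s - 1 := by simp [pv, h]
    rw [e]
    unfold nx
    rw [if_neg (by omega)]
    omega

lemma b_col (n r : ℕ) : b n (r, 0) = nx n r := by
  by_cases h : r = 0
  · subst h; simp [b]
  · simp [b, h]

lemma bitrade (n : ℕ) : IsBitrade (W n) (B n) := by
  refine ⟨pls_W n, pls_B n, ⟨(0, 0, 0), ?_⟩, ⟨(0, 0, 1), ?_⟩, ?_, ?_, ?_, ?_⟩
  · rw [mem_W]; simp [w]
  · rw [mem_B]; simp [b, nx]
  · rw [Finset.disjoint_left]
    rintro ⟨r, c, s⟩ h h'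
    rw [mem_W] at h
    rw [mem_B] at h'
    obtain ⟨h1, h2, h3, h4⟩ := h
    obtain ⟨h5, h6, h7, h8⟩ := h'
    simp only [w, nx] at h4
    simp only [b, nx] at h8
    split_ifs at h4 h8 <;> omega
  · intro r c
    simp only [mem_W, mem_B]
    constructor
    · rintro ⟨s, h1, h2, h3, _⟩
      exact ⟨_, h1, h2, h3, rfl⟩
    · rintro ⟨s, h1, h2, h3, _⟩
      exact ⟨_, h1, h2, h3, rfl⟩
  · intro r s
    simp only [mem_W, mem_B]
    constructor
    · rintro ⟨c, h1, h2, h3, h4⟩
      by_cases hr : r = 0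
      · refine ⟨pv n s, h1, ?_, Or.inl hr, ?_⟩
        · simp only [w, nx, pv] at h4 ⊢
          split_ifs at h4 ⊢ <;> omega
        · simp only [w, b, nx, pv] at h4 ⊢
          split_ifs at h4 ⊢ <;> omega
      · by_cases hc : c = 0
        · refine ⟨r, h1, h1, Or.inr (Or.inr rfl), ?_⟩
          simp only [w, b, nx] at h4 ⊢
          split_ifs at h4 ⊢ <;> omega
        · refine ⟨0, h1, by omega, Or.inr (Or.inl rfl), ?_⟩
          simp only [w, b, nx] at h4 ⊢
          split_ifs at h4 ⊢ <;> omega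
    · rintro ⟨c, h1, h2, h3, h4⟩
      by_cases hr : r = 0
      · refine ⟨s, h1, ?_, Or.inl hr, ?_⟩
        · simp only [b, nx] at h4 ⊢
          split_ifs at h4 ⊢ <;> omega
        · simp only [w, hr, if_true]
      · by_cases hc : c = 0
        · refine ⟨r, h1, h1, Or.inr (Or.inr rfl), ?_⟩
          simp only [w, b, nx] at h4 ⊢
          split_ifs at h4 ⊢ <;> omega
        · refine ⟨0, h1, by omega, Or.inr (Or.inl rfl), ?_⟩
          simp only [w, b, nx] at h4 ⊢
          split_ifs at h4 ⊢ <;> omega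
  · intro c s
    simp only [mem_W, mem_B]
    constructor
    · rintro ⟨r, h1, h2, h3, h4⟩
      by_cases hc : c = 0
      · have hs : s < n + 2 := by
          simp only [w, nx] at h4
          split_ifs at h4 <;> omega
        refine ⟨pv n s, ?_, h2, Or.inr (Or.inl hc), ?_⟩
        · simp only [pv]
          split_ifs <;> omega
        · subst hc
          rw [b_col, nx_pv hs]
      · by_cases hr : r = 0
        · refine ⟨c, h2, h2, Or.inr (Or.inr rfl), ?_⟩
          simp only [w, b, nx] at h4 ⊢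
          split_ifs at h4 ⊢ <;> omega
        · refine ⟨0, by omega, h2, Or.inl rfl, ?_⟩
          simp only [w, b, nx] at h4 ⊢
          split_ifs at h4 ⊢ <;> omega
    · rintro ⟨r, h1, h2, h3, h4⟩
      by_cases hc : c = 0
      · refine ⟨s, ?_, h2, Or.inr (Or.inl hc), ?_⟩
        · simp only [b, nx] at h4 ⊢
          split_ifs at h4 ⊢ <;> omega
        · simp only [w]
          split_ifs <;> omega
      · by_cases hr : r = 0
        · refine ⟨c, h2, h2, Or.inr (Or.inr rfl), ?_⟩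
          simp only [w, b, nx] at h4 ⊢
          split_ifs at h4 ⊢ <;> omega
        · refine ⟨0, by omega, h2, Or.inl rfl, ?_⟩
          simp only [w, b, nx] at h4 ⊢
          split_ifs at h4 ⊢ <;> omega

/-! ### the lower bound -/

lemma lower {n : ℕ} {G : Type} [AddCommGroup G] [Finite G] (h : Embeds (W n) G) :
    2 ^ (n + 1) ≤ Nat.card G := by
  obtain ⟨α, β, γ, _, _, hγ, h⟩ := h
  have e0 : α 0 + β 0 = γ 0 := h 0 0 0 (by rw [mem_W]; simp [w])
  have e1 : ∀ j < n + 2, α 0 + β j = γ j := fun j hj => h 0 j j (by rw [mem_W]; simp [w, hj])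
  have e2 : ∀ j < n + 2, α j + β 0 = γ j := fun j hj => h j 0 j (by
    rw [mem_W]
    refine ⟨hj, by omega, Or.inr (Or.inl rfl), ?_⟩
    simp only [w]; split_ifs <;> omega)
  have e3 : ∀ j, 0 < j → j < n + 2 → α j + β j = γ (nx n j) := fun j h0 hj => h j j _ (by
    rw [mem_W]
    refine ⟨hj, hj, Or.inr (Or.inr rfl), ?_⟩
    simp only [w]; split_ifs <;> omega)
  have e4 : ∀ j, 0 < j → j < n + 2 → γ (nx n j) - γ 0 = (2 : ℕ) • (γ j - γ 0) := by
    intro j h0 hj
    rw [← e3 j h0 hj, two_nsmul]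
    have a1 := e1 j hj
    have a2 := e2 j hj
    calc α j + β j - γ 0 = (α 0 + β j) + (α j + β 0) - (α 0 + β 0) - γ 0 := by abel
      _ = γ j - γ 0 + (γ j - γ 0) := by rw [a1, a2, e0]; abel
  have e5 : ∀ i ≤ n, γ (i + 1) - γ 0 = (2 ^ i : ℕ) • (γ 1 - γ 0) := by
    intro i
    induction i with
    | zero => intro _; simp
    | succ i ih =>
      intro hi
      have := e4 (i + 1) (by omega) (by omega)
      have hnx : nx n (i + 1) = i + 1 + 1 := by unfold nx; rw [if_neg (by omega)]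
      rw [hnx, ih (by omega), smul_smul, ← pow_succ'] at this
      exact this
  have e6 : (2 ^ (n + 1) : ℕ) • (γ 1 - γ 0) = 0 := by
    have := e4 (n + 1) (by omega) (by omega)
    have hnx : nx n (n + 1) = 0 := by unfold nx; rw [if_pos rfl]
    rw [hnx, e5 n le_rfl, smul_smul, ← pow_succ', sub_self] at this
    exact this.symm
  have e7 : ¬ (2 ^ n : ℕ) • (γ 1 - γ 0) = 0 := by
    rw [← e5 n le_rfl, sub_eq_zero]
    intro hcon
    have := hγ ⟨0, n + 1, by rw [mem_W]; simp [w]⟩ ⟨0, 0, by rw [mem_W]; simp [w]⟩ hcon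
    omega
  have e8 : addOrderOf (γ 1 - γ 0) = 2 ^ (n + 1) := addOrderOf_eq_prime_pow e7 e6
  rw [← e8]
  exact Nat.le_of_dvd Nat.card_pos (addOrderOf_dvd_natCard _)

/-! ### the embeddings -/

lemma pow_lt_inj {n i j : ℕ} (hi : i < n + 1) (hj : j < n + 1)
    (h : ((2 ^ i : ℕ) : ZMod (2 ^ (n + 1))) = ((2 ^ j : ℕ) : ZMod (2 ^ (n + 1)))) : i = j := by
  rw [ZMod.natCast_eq_natCast_iff'] at h
  rw [Nat.mod_eq_of_lt (Nat.pow_lt_pow_right one_lt_two hi),
    Nat.mod_eq_of_lt (Nat.pow_lt_pow_right one_lt_two hj)] at h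
  exact Nat.pow_right_injective le_rfl h

lemma pow_ne {n i : ℕ} (hi : i < n + 1) : ((2 ^ i : ℕ) : ZMod (2 ^ (n + 1))) ≠ 0 := by
  intro h
  rw [ZMod.natCast_eq_zero_iff] at h
  have h1 := Nat.le_of_dvd (by positivity) h
  have h2 := Nat.pow_lt_pow_right (a := 2) one_lt_two hi
  omega

lemma pow_top (n : ℕ) : ((2 ^ (n + 1) : ℕ) : ZMod (2 ^ (n + 1))) = 0 := ZMod.natCast_self _

lemma row_W {n r : ℕ} (h : ∃ c s, (r, c, s) ∈ W n) : r < n + 2 := by
  obtain ⟨c, s, h⟩ := h; exact (mem_W.1 h).1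

lemma col_W {n c : ℕ} (h : ∃ r s, (r, c, s) ∈ W n) : c < n + 2 := by
  obtain ⟨r, s, h⟩ := h; exact (mem_W.1 h).2.1

lemma sym_W {n s : ℕ} (h : ∃ r c, (r, c, s) ∈ W n) : s < n + 2 := by
  obtain ⟨r, c, h⟩ := h
  obtain ⟨h1, h2, h3, h4⟩ := mem_W.1 h
  simp only [w, nx] at h4
  split_ifs at h4 <;> omega

lemma row_B {n r : ℕ} (h : ∃ c s, (r, c, s) ∈ B n) : r < n + 2 := by
  obtain ⟨c, s, h⟩ := h; exact (mem_B.1 h).1

lemma col_B {n c : ℕ} (h : ∃ r s, (r, c, s) ∈ B n) : c < n + 2 := by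
  obtain ⟨r, s, h⟩ := h; exact (mem_B.1 h).2.1

lemma sym_B {n s : ℕ} (h : ∃ r c, (r, c, s) ∈ B n) : s < n + 2 := by
  obtain ⟨r, c, h⟩ := h
  obtain ⟨h1, h2, h3, h4⟩ := mem_B.1 h
  simp only [b, nx] at h4
  split_ifs at h4 <;> omega

/-- labels of the first mate -/
def lw (n : ℕ) (j : ℕ) : ZMod (2 ^ (n + 1)) := if j = 0 then 0 else ((2 ^ (j - 1) : ℕ) : ZMod _)

lemma lw_inj {n i j : ℕ} (hi : i < n + 2) (hj : j < n + 2) (h : lw n i = lw n j) : i = j := by
  unfold lw at h
  split_ifs at h with h1 h2 h2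
  · omega
  · exact absurd h.symm (pow_ne (by omega))
  · exact absurd h (pow_ne (by omega))
  · have := pow_lt_inj (by omega) (by omega) h
    omega

/-- row and column labels of the second mate -/
def lb (n : ℕ) (j : ℕ) : ZMod (2 ^ (n + 1)) :=
  if j = 0 then 0 else ((2 ^ (n + 1 - j) : ℕ) : ZMod _)

lemma lb_inj {n i j : ℕ} (hi : i < n + 2) (hj : j < n + 2) (h : lb n i = lb n j) : i = j := by
  unfold lb at h
  split_ifs at h with h1 h2 h2
  · omega
  · exact absurd h.symm (pow_ne (by omega))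
  · exact absurd h (pow_ne (by omega))
  · have := pow_lt_inj (by omega) (by omega) h
    omega

/-- symbol labels of the second mate -/
def ls (n : ℕ) (j : ℕ) : ZMod (2 ^ (n + 1)) :=
  if j = 0 then 1 else if j = 1 then 0 else ((2 ^ (n + 2 - j) : ℕ) : ZMod _)

lemma ls_inj {n i j : ℕ} (hi : i < n + 2) (hj : j < n + 2) (h : ls n i = ls n j) : i = j := by
  have h10 : (1 : ZMod (2 ^ (n + 1))) ≠ 0 := by
    have := pow_ne (n := n) (i := 0) (by omega)
    simpa using this
  have h1 : ∀ k, 0 < k → k < n + 1 → (1 : ZMod (2 ^ (n + 1))) ≠ ((2 ^ k : ℕ) : ZMod _) := by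
    intro k hk hk' hcon
    have h0 : ((2 ^ 0 : ℕ) : ZMod (2 ^ (n + 1))) = ((2 ^ k : ℕ) : ZMod _) := by
      rw [← hcon]; simp
    have := pow_lt_inj (by omega) hk' h0
    omega
  unfold ls at h
  split_ifs at h
  · omega
  · exact absurd h h10
  · exact absurd h (h1 _ (by omega) (by omega))
  · exact absurd h.symm h10
  · omega
  · exact absurd h.symm (pow_ne (by omega))
  · exact absurd h.symm (h1 _ (by omega) (by omega))
  · exact absurd h (pow_ne (by omega))
  · have := pow_lt_inj (by omega) (by omega) h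
    omega

lemma embeds_W (n : ℕ) : Embeds (W n) (ZMod (2 ^ (n + 1))) := by
  refine ⟨lw n, lw n, lw n, fun i hi j hj h => lw_inj (row_W hi) (row_W hj) h,
    fun i hi j hj h => lw_inj (col_W hi) (col_W hj) h,
    fun i hi j hj h => lw_inj (sym_W hi) (sym_W hj) h, ?_⟩
  intro r c s h
  obtain ⟨h1, h2, h3, h4⟩ := mem_W.1 h
  subst h4
  by_cases hr : r = 0
  · subst hr; simp [lw, w]
  · by_cases hc : c = 0
    · subst hc; simp [lw, w, hr]
    · have hrc : r = c := by omega
      subst hrc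
      by_cases hn : r = n + 1
      · have e : w n (r, r) = 0 := by simp [w, nx, hn]
        rw [e]
        simp only [lw, hr, if_false, if_true]
        rw [← Nat.cast_add, ← two_mul, ← pow_succ', hn]
        exact pow_top n
      · have e : w n (r, r) = r + 1 := by simp [w, nx, hr, hn]
        rw [e]
        simp only [lw, hr, if_false, Nat.succ_ne_zero, Nat.add_sub_cancel]
        rw [← Nat.cast_add, ← two_mul, ← pow_succ', Nat.sub_add_cancel (by omega)]

lemma embeds_B (n : ℕ) : Embeds (B n) (ZMod (2 ^ (n + 1))) := by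
  refine ⟨lb n, lb n, ls n, fun i hi j hj h => lb_inj (row_B hi) (row_B hj) h,
    fun i hi j hj h => lb_inj (col_B hi) (col_B hj) h,
    fun i hi j hj h => ls_inj (sym_B hi) (sym_B hj) h, ?_⟩
  have key : ∀ j < n + 2, lb n j = ls n (nx n j) := by
    intro j hj
    by_cases h0 : j = 0
    · subst h0; simp [lb, ls, nx]
    · by_cases hn : j = n + 1
      · subst hn; simp [lb, ls, nx]
      · have e : nx n j = j + 1 := by simp [nx, hn]
        rw [e]
        simp only [lb, ls, h0, if_false, Nat.succ_ne_zero]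
        rw [if_neg (by omega)]
        congr 2
        omega
  intro r c s h
  obtain ⟨h1, h2, h3, h4⟩ := mem_B.1 h
  subst h4
  by_cases hr : r = 0
  · subst hr
    have e : b n (0, c) = nx n c := by simp [b]
    rw [e, ← key c h2]; simp [lb]
  · by_cases hc : c = 0
    · subst hc
      have e : b n (r, 0) = nx n r := by simp [b, hr]
      rw [e, ← key r h1]; simp [lb]
    · have hrc : r = c := by omega
      subst hrc
      have e : b n (r, r) = r := by simp [b, hr]
      rw [e]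
      by_cases h1' : r = 1
      · subst h1'
        simp only [lb, ls, if_true, if_neg one_ne_zero, Nat.add_sub_cancel]
        rw [← Nat.cast_add, ← two_mul, ← pow_succ']
        exact pow_top n
      · simp only [lb, ls, hr, h1', if_false]
        rw [← Nat.cast_add, ← two_mul, ← pow_succ']
        congr 2
        omega

theorem minOrder_eq (n : ℕ) : minOrder (W n) (B n) = 2 ^ (n + 1) := by
  have hmem : 2 ^ (n + 1) ∈ orders (W n) (B n) := by
    refine ⟨ZMod (2 ^ (n + 1)), inferInstance, ?_, ?_, embeds_W n, embeds_B n⟩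
    · have : NeZero (2 ^ (n + 1)) := ⟨by positivity⟩
      infer_instance
    · exact Nat.card_zmod _
  apply le_antisymm
  · exact Nat.sInf_le hmem
  · apply le_csInf ⟨_, hmem⟩
    rintro N ⟨G, _, hf, rfl, hW, _⟩
    exact lower hW

/-- **Exponential growth.** There are a constant `c > 1` and latin bitrades `(W_n, B_n)` whose
sizes tend to infinity, such that both mates embed in a common finite abelian group and the least
order of such a group is at least `c ^ |W_n|`. In fact `|W_n| = 3 n + 4` and the least order is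
`2 ^ (n + 1)`. -/
theorem result : ∃ c : ℝ, 1 < c ∧ ∃ W B : ℕ → Finset (ℕ × ℕ × ℕ),
    (∀ n, IsBitrade (W n) (B n)) ∧
    Filter.Tendsto (fun n => (W n).card) Filter.atTop Filter.atTop ∧
    (∀ n, (orders (W n) (B n)).Nonempty) ∧
    (∀ n, c ^ (W n).card ≤ minOrder (W n) (B n)) ∧
    ∀ n, (W n).card = 3 * n + 4 ∧ minOrder (W n) (B n) = 2 ^ (n + 1) := by
  refine ⟨(2 : ℝ) ^ ((1 : ℝ) / 4), ?_, W, B, bitrade, ?_, ?_, ?_, fun n => ⟨card_W n, minOrder_eq n⟩⟩
  · exact Real.one_lt_rpow (by norm_num) (by norm_num)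
  · simp only [card_W]
    exact Filter.tendsto_atTop_mono (f := fun n => n) (fun n => by omega) Filter.tendsto_id
  · intro n
    refine ⟨2 ^ (n + 1), ZMod (2 ^ (n + 1)), inferInstance, ?_, ?_, embeds_W n, embeds_B n⟩
    · have : NeZero (2 ^ (n + 1)) := ⟨by positivity⟩
      infer_instance
    · exact Nat.card_zmod _
  · intro n
    rw [card_W, minOrder_eq, ← Real.rpow_natCast, ← Real.rpow_mul (by norm_num)]
    push_cast
    rw [← Real.rpow_natCast]
    apply Real.rpow_le_rpow_of_exponent_le (by norm_num)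
    push_cast
    linarith [(Nat.cast_nonneg n : (0 : ℝ) ≤ n)]

end Pool.Agent.Run7.h513.Kept.ExponentialGrowth
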