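import Mathlib

/-!
# Two vertices of maximum degree in forests: the exact threshold for deletions

`f(G)` is the least number of vertices whose deletion from `G` leaves a graph with at least two
vertices of maximum degree, or with fewer than two vertices.  With
`N(t) = (t³ + 6t² + 17t + 12)/6` we prove, for every `t ≥ 1`, that every forest on at most
`N(t)` vertices satisfies `f ≤ t`, and that some forest on `N(t) + 1` vertices has `f ≥ t + 1`.
-/

set_option autoImplicit false

namespace Pool.Agent.Run7.h513.Kept.ForestThreshold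

open Finset

/-- The degree of `x` in the subgraph of `G` induced on `S`: the number of neighbours in `S`. -/
noncomputable def degIn {V : Type} (G : SimpleGraph V) (S : Finset V) (x : V) : ℕ :=
  {y | y ∈ S ∧ G.Adj x y}.ncard

/-- The subgraph of `G` induced on `S` has at least two vertices of maximum degree, or it has
fewer than two vertices. -/
def Equated {V : Type} (G : SimpleGraph V) (S : Finset V) : Prop :=
  (∃ u ∈ S, ∃ v ∈ S, u ≠ v ∧ (∀ w ∈ S, degIn G S w ≤ degIn G S u) ∧
    (∀ w ∈ S, degIn G S w ≤ degIn G S v)) ∨ S.card < 2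

/-- `f(G)`: the least size of a set `B` of vertices such that `G - B` has at least two vertices
of maximum degree, or fewer than two vertices. -/
noncomputable def f {V : Type} [Fintype V] [DecidableEq V] (G : SimpleGraph V) : ℕ :=
  sInf {k | ∃ B : Finset V, B.card = k ∧ Equated G (univ \ B)}

/-- `N(t) = (t³ + 6t² + 17t + 12)/6`; the division is exact (part of the main theorem). -/
def N (t : ℕ) : ℕ := (t ^ 3 + 6 * t ^ 2 + 17 * t + 12) / 6

/-! ### The numbers -/

/-- Triangular numbers plus one: the degrees forced at the successive steps. -/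
def a (j : ℕ) : ℕ := 1 + (j + 1) * (j + 2) / 2

lemma two_a (j : ℕ) : 2 * a j = 2 + (j + 1) * (j + 2) := by
  unfold a
  have : 2 ∣ (j + 1) * (j + 2) := (Nat.even_mul_succ_self (j + 1)).two_dvd
  omega

lemma a_succ (j : ℕ) : a (j + 1) = a j + (j + 2) := by
  have h1 := two_a j
  have h2 := two_a (j + 1)
  nlinarith

lemma a_ge (j : ℕ) : 2 ≤ a j := by
  have h1 := two_a j
  nlinarith

lemma a_mono {i j : ℕ} (h : i ≤ j) : a i ≤ a j := by
  induction h with
  | refl => exact le_rfl
  | step _ ih => rw [Nat.succ_eq_add_one, a_succ]; omega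

/-- The sum `a 0 + … + a t`. -/
def s : ℕ → ℕ
  | 0 => a 0
  | t + 1 => s t + a (t + 1)

lemma six_s (t : ℕ) : 6 * s t = (t + 1) * (t + 2) * (t + 3) + 6 * (t + 1) := by
  induction t with
  | zero => simp [s, a]
  | succ t ih =>
    rw [s, mul_add, ih]
    have := two_a (t + 1)
    nlinarith

lemma six_N (t : ℕ) : 6 * N t = t ^ 3 + 6 * t ^ 2 + 17 * t + 12 := by
  have h := six_s t
  have h2 : t ^ 3 + 6 * t ^ 2 + 17 * t + 12 = 6 * s t := by rw [h]; ring
  unfold N
  rw [h2]
  omega

lemma N_eq (t : ℕ) : N t = s t := by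
  have h := six_s t
  have h2 := six_N t
  nlinarith

/-! ### Counting neighbours -/

variable {V : Type} [Fintype V] [DecidableEq V]

open Classical in
lemma degIn_eq (G : SimpleGraph V) (S : Finset V) (x : V) :
    degIn G S x = (S.filter fun y => G.Adj x y).card := by
  unfold degIn
  rw [← Set.ncard_coe_finset]
  congr 1
  ext y
  simp

open Classical in
lemma degIn_mono (G : SimpleGraph V) {S T : Finset V} (h : S ⊆ T) (x : V) :
    degIn G S x ≤ degIn G T x := by
  rw [degIn_eq, degIn_eq]
  exact card_le_card (filter_subset_filter _ h)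

/-- Twice the number of edges inside `S`. -/
noncomputable def tw (G : SimpleGraph V) (S : Finset V) : ℕ := ∑ x ∈ S, degIn G S x

open Classical in
lemma tw_erase (G : SimpleGraph V) (S : Finset V) {v : V} (hv : v ∈ S) :
    tw G S = tw G (S.erase v) + 2 * degIn G S v := by
  unfold tw
  rw [← Finset.add_sum_erase S _ hv]
  have h1 : ∀ x ∈ S.erase v, degIn G S x = degIn G (S.erase v) x + if G.Adj v x then 1 else 0 := by
    intro x hx
    rw [degIn_eq, degIn_eq]
    have : (S.filter fun y => G.Adj x y) =
        ((S.erase v).filter fun y => G.Adj x y) ∪ (if G.Adj v x then {v} else ∅) := by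
      ext y
      split_ifs with h
      · simp only [mem_filter, mem_union, mem_erase, mem_singleton]
        constructor
        · rintro ⟨h1, h2⟩
          by_cases hy : y = v
          · exact Or.inr hy
          · exact Or.inl ⟨⟨hy, h1⟩, h2⟩
        · rintro (⟨⟨-, h1⟩, h2⟩ | rfl)
          · exact ⟨h1, h2⟩
          · exact ⟨hv, h.symm⟩
      · simp only [mem_filter, union_empty, mem_erase]
        constructor
        · rintro ⟨h1, h2⟩
          exact ⟨⟨fun hy => h (hy ▸ h2).symm, h1⟩, h2⟩
        · rintro ⟨⟨-, h1⟩, h2⟩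
          exact ⟨h1, h2⟩
    rw [this, card_union_of_disjoint]
    · split_ifs <;> simp
    · split_ifs
      · rw [disjoint_singleton_right]
        simp
      · simp
  rw [Finset.sum_congr rfl h1, Finset.sum_add_distrib]
  have h2 : (∑ x ∈ S.erase v, if G.Adj v x then 1 else 0) = degIn G S v := by
    rw [degIn_eq, ← Finset.sum_filter, Finset.sum_const, smul_eq_mul, mul_one]
    congr 1
    ext y
    simp only [mem_filter, mem_erase]
    constructor
    · rintro ⟨⟨-, h1⟩, h2⟩
      exact ⟨h1, h2⟩
    · rintro ⟨h1, h2⟩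
      exact ⟨⟨h2.ne', h1⟩, h2⟩
  rw [h2]
  ring

/-! ### Forests have no triangles and no four-cycles -/

lemma no_tri {G : SimpleGraph V} (hG : G.IsAcyclic) {x y z : V} (h1 : G.Adj x y)
    (h2 : G.Adj y z) (h3 : G.Adj x z) : False := by
  have hp : (SimpleGraph.Walk.cons h1 (SimpleGraph.Walk.cons h2 SimpleGraph.Walk.nil)).IsPath := by
    simp [SimpleGraph.Walk.cons_isPath_iff, h1.ne, h2.ne, h3.ne]
  have hq : (SimpleGraph.Walk.cons h3 SimpleGraph.Walk.nil).IsPath := by
    simp [SimpleGraph.Walk.cons_isPath_iff, h3.ne]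
  have := (SimpleGraph.isAcyclic_iff_subsingleton_path.1 hG _ _).elim ⟨_, hp⟩ ⟨_, hq⟩
  have h4 := congrArg (fun p : G.Path x z => p.1.length) this
  simp at h4

lemma common_unique {G : SimpleGraph V} (hG : G.IsAcyclic) {x z y y' : V} (hxz : x ≠ z)
    (h1 : G.Adj x y) (h2 : G.Adj z y) (h1' : G.Adj x y') (h2' : G.Adj z y') : y = y' := by
  have hp : (SimpleGraph.Walk.cons h1 (SimpleGraph.Walk.cons h2.symm SimpleGraph.Walk.nil)).IsPath := by
    simp [SimpleGraph.Walk.cons_isPath_iff, h1.ne, h2.symm.ne, hxz]
  have hq : (SimpleGraph.Walk.cons h1' (SimpleGraph.Walk.cons h2'.symm SimpleGraph.Walk.nil)).IsPath := by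
    simp [SimpleGraph.Walk.cons_isPath_iff, h1'.ne, h2'.symm.ne, hxz]
  have := (SimpleGraph.isAcyclic_iff_subsingleton_path.1 hG _ _).elim ⟨_, hp⟩ ⟨_, hq⟩
  have h4 := congrArg (fun p : G.Path x z => p.1.support) this
  simpa using h4

open Classical in
/-- The gap argument: the vertex of maximum degree beats every other one by more than the number
of allowed deletions. -/
lemma gap {G : SimpleGraph V} (hG : G.IsAcyclic) {S : Finset V} {t : ℕ}
    (hS : ∀ B ⊆ S, B.card ≤ t → ¬ Equated G (S \ B)) {v u : V} (hv : v ∈ S) (hu : u ∈ S)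
    (huv : u ≠ v) (hmax : ∀ w ∈ S, w ≠ v → degIn G S w ≤ degIn G S u)
    (hlt : degIn G S u < degIn G S v) (hu1 : 1 ≤ degIn G S u) :
    degIn G S u + t + 1 ≤ degIn G S v := by
  by_contra hcon
  push Not at hcon
  set e := degIn G S u with he
  -- neighbours of `v` that are neither `u` nor adjacent to `u`
  set Nv := S.filter fun y => G.Adj v y with hNv
  set bad := Nv.filter fun y => y = u ∨ G.Adj u y with hbad
  have hbad1 : bad.card ≤ 1 := by
    rw [card_le_one]
    intro y hy y' hy'
    simp only [hbad, hNv, mem_filter] at hy hy'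
    obtain ⟨⟨-, h1⟩, h2⟩ := hy
    obtain ⟨⟨-, h1'⟩, h2'⟩ := hy'
    rcases h2 with rfl | h2 <;> rcases h2' with rfl | h2'
    · rfl
    · exact (no_tri hG h1 h2' h1').elim
    · exact (no_tri hG h1' h2 h1).elim
    · exact common_unique hG huv.symm h1 h2 h1' h2'
  have hgood : degIn G S v ≤ (Nv \ bad).card + 1 := by
    have h0 : degIn G S v = Nv.card := degIn_eq G S v
    have := card_sdiff_add_card Nv bad
    have h2 : (Nv ∪ bad) = Nv := union_eq_left.2 (filter_subset _ _)
    rw [h2] at this
    omega
  have hg : degIn G S v - e ≤ (Nv \ bad).card := by omega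
  obtain ⟨B, hB, hBc⟩ := exists_subset_card_eq hg
  have hBS : B ⊆ S := fun y hy => by
    have := hB hy
    simp only [mem_sdiff, hNv, mem_filter] at this
    exact this.1.1
  have hBv : ∀ y ∈ B, G.Adj v y := fun y hy => by
    have := hB hy
    simp only [mem_sdiff, hNv, mem_filter] at this
    exact this.1.2
  have hBu : ∀ y ∈ B, y ≠ u ∧ ¬ G.Adj u y := fun y hy => by
    have h := mem_sdiff.1 (hB hy)
    have h2 := h.2
    simp only [hbad, mem_filter, not_and, not_or] at h2
    exact h2 h.1
  refine hS B hBS (by omega) (Or.inl ⟨u, ?_, v, ?_, huv, ?_, ?_⟩)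
  · exact mem_sdiff.2 ⟨hu, fun h => (hBu u h).1 rfl⟩
  · exact mem_sdiff.2 ⟨hv, fun h => (hBv v h).ne rfl⟩
  all_goals
    have hdu : degIn G (S \ B) u = e := by
      rw [he, degIn_eq, degIn_eq]
      congr 1
      ext y
      simp only [mem_filter, mem_sdiff]
      constructor
      · rintro ⟨⟨h1, -⟩, h2⟩
        exact ⟨h1, h2⟩
      · rintro ⟨h1, h2⟩
        exact ⟨⟨h1, fun h => (hBu y h).2 h2⟩, h2⟩
    have hdv : degIn G (S \ B) v = e := by
      have h1 : ((S \ B).filter fun y => G.Adj v y) = Nv \ B := by
        ext y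
        simp only [mem_filter, mem_sdiff, hNv]
        tauto
      rw [degIn_eq, h1, card_sdiff_of_subset, hBc]
      · have : degIn G S v = Nv.card := by rw [degIn_eq]
        omega
      · exact hB.trans sdiff_subset
    intro w hw
    first
      | rw [hdu]
      | rw [hdv]
    by_cases hwv : w = v
    · rw [hwv, hdv]
    · exact (degIn_mono G sdiff_subset w).trans (hmax w (mem_sdiff.1 hw).1 hwv)

open Classical in
/-- The lower bound, by induction on the number of allowed deletions. -/
lemma lower {G : SimpleGraph V} (hG : G.IsAcyclic) (t : ℕ) : ∀ S : Finset V,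
    (∀ B ⊆ S, B.card ≤ t → ¬ Equated G (S \ B)) →
    (∃ v ∈ S, a t ≤ degIn G S v) ∧ 2 * s t ≤ tw G S := by
  induction t with
  | zero =>
    intro S hS
    have h0 := hS ∅ (empty_subset _) (by simp)
    rw [sdiff_empty] at h0
    unfold Equated at h0
    push Not at h0
    obtain ⟨h0, h2⟩ := h0
    have hne : S.Nonempty := card_pos.1 (by omega)
    obtain ⟨v, hv, hmax⟩ := exists_max_image S (degIn G S) hne
    have huniq : ∀ w ∈ S, w ≠ v → degIn G S w < degIn G S v := by
      intro w hw hwv
      by_contra hcon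
      push Not at hcon
      obtain ⟨x, hx, hx2⟩ := h0 v hv w hw hwv.symm hmax
      exact absurd ((hmax x hx).trans hcon) (not_le.2 hx2)
    obtain ⟨w, hw, hwv⟩ : ∃ w ∈ S, w ≠ v := by
      by_contra hcon
      push Not at hcon
      have : S.card ≤ 1 := card_le_one.2 fun x hx y hy => (hcon x hx).trans (hcon y hy).symm
      omega
    have h3 := huniq w hw hwv
    have h4 : (S.filter fun y => G.Adj v y).Nonempty := by
      rw [← card_pos, ← degIn_eq]
      omega
    obtain ⟨x, hx⟩ := h4
    rw [mem_filter] at hx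
    have h5 := huniq x hx.1 hx.2.ne'
    have h6 : 1 ≤ degIn G S x := by
      rw [degIn_eq, Nat.one_le_iff_ne_zero, Ne, card_eq_zero, ← Ne, ← nonempty_iff_ne_empty]
      exact ⟨v, mem_filter.2 ⟨hv, hx.2.symm⟩⟩
    refine ⟨⟨v, hv, ?_⟩, ?_⟩
    · show a 0 ≤ _
      have : a 0 = 2 := by decide
      omega
    · rw [tw_erase G S hv]
      have : s 0 = 2 := by decide
      omega
  | succ t ih =>
    intro S hS
    have h0 := hS ∅ (empty_subset _) (by simp)
    rw [sdiff_empty] at h0
    unfold Equated at h0
    push Not at h0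
    obtain ⟨h0, h2⟩ := h0
    have hne : S.Nonempty := card_pos.1 (by omega)
    obtain ⟨v, hv, hmax⟩ := exists_max_image S (degIn G S) hne
    have huniq : ∀ w ∈ S, w ≠ v → degIn G S w < degIn G S v := by
      intro w hw hwv
      by_contra hcon
      push Not at hcon
      obtain ⟨x, hx, hx2⟩ := h0 v hv w hw hwv.symm hmax
      exact absurd ((hmax x hx).trans hcon) (not_le.2 hx2)
    have hS' : ∀ B ⊆ S.erase v, B.card ≤ t → ¬ Equated G (S.erase v \ B) := by
      intro B hB hBc
      have h3 := hS (insert v B) (insert_subset hv (hB.trans (erase_subset _ _)))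
        ((card_insert_le _ _).trans (by omega))
      have h4 : S \ insert v B = S.erase v \ B := by
        ext x
        simp only [mem_sdiff, mem_insert, mem_erase]
        tauto
      rwa [h4] at h3
    obtain ⟨⟨u', hu', hdu'⟩, hsum⟩ := ih (S.erase v) hS'
    obtain ⟨u, hu, humax⟩ := exists_max_image (S.erase v) (degIn G S) ⟨u', hu'⟩
    have hu2 := mem_erase.1 hu
    have hu'2 := mem_erase.1 hu'
    have h5 : a t ≤ degIn G S u :=
      (hdu'.trans (degIn_mono G (erase_subset _ _) u')).trans (humax u' hu')
    have h6 : 2 ≤ a t := a_ge t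
    have hg := gap hG hS hv hu2.2 hu2.1 (fun w hw hwv => humax w (mem_erase.2 ⟨hwv, hw⟩))
      (huniq u hu2.2 hu2.1) (by omega)
    have h7 := a_succ t
    refine ⟨⟨v, hv, by omega⟩, ?_⟩
    rw [tw_erase G S hv]
    have h8 : s (t + 1) = s t + a (t + 1) := rfl
    omega

open Classical in
/-- An acyclic graph on a nonempty vertex set has fewer edges than vertices. -/
lemma tw_lt {G : SimpleGraph V} [Nonempty V] (hG : G.IsAcyclic) :
    tw G univ + 2 ≤ 2 * Fintype.card V := by
  obtain ⟨T, hGT, -, hT⟩ :=
    (SimpleGraph.connected_top (V := V)).exists_isTree_le_of_le_of_isAcyclic (le_top (a := G)) hG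
  have h1 : G.edgeFinset.card + 1 ≤ Fintype.card V := by
    rw [← hT.card_edgeFinset]
    gcongr
  have h2 := G.sum_degrees_eq_twice_card_edges
  have h3 : tw G univ = ∑ v, G.degree v := by
    unfold tw
    refine Finset.sum_congr rfl fun x _ => ?_
    rw [degIn_eq, SimpleGraph.degree]
    congr 1
    ext y
    simp
  omega

/-- Part (i). -/
theorem upper {G : SimpleGraph V} (hG : G.IsAcyclic) {t : ℕ} (hn : Fintype.card V ≤ N t) :
    f G ≤ t := by
  by_contra hcon
  push Not at hcon
  have hS : ∀ B ⊆ (univ : Finset V), B.card ≤ t → ¬ Equated G (univ \ B) := by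
    intro B _ hB hE
    have : f G ≤ B.card := Nat.sInf_le ⟨B, rfl, hE⟩
    omega
  obtain ⟨⟨v, -, -⟩, h2⟩ := lower hG t univ hS
  have : Nonempty V := ⟨v⟩
  have h3 := tw_lt hG
  rw [N_eq] at hn
  omega

/-! ### The extremal forest: a chain of stars glued along leaves -/

/-- Number of leaves of the `j`-th star that are not shared with the previous one. -/
def b (j : ℕ) : ℕ := if j = 0 then 2 else a j - 1

/-- Vertices: `(j, 0)` is the centre of the `j`-th star, `(j, i)` with `1 ≤ i ≤ b j` are leaves. -/
abbrev W (t : ℕ) : Type := Σ j : Fin (t + 1), Fin (b j + 1)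

/-- `x` is a centre, and `y` is a leaf attached to it: a leaf of the same star, or the first
leaf of the previous star. -/
def R {t : ℕ} (x y : W t) : Prop :=
  x.2.val = 0 ∧ y.2.val ≠ 0 ∧ (y.1.val = x.1.val ∨ (y.2.val = 1 ∧ y.1.val + 1 = x.1.val))

/-- The extremal forest. -/
def T (t : ℕ) : SimpleGraph (W t) where
  Adj x y := R x y ∨ R y x
  symm := ⟨fun _ _ h => Or.symm h⟩
  loopless := ⟨fun x h => by
    rcases h with h | h <;> exact h.2.1 h.1⟩

lemma W_ext {t : ℕ} {x y : W t} (h1 : x.1.val = y.1.val) (h2 : x.2.val = y.2.val) : x = y := by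
  obtain ⟨⟨j, hj⟩, ⟨i, hi⟩⟩ := x
  obtain ⟨⟨j', hj'⟩, ⟨i', hi'⟩⟩ := y
  simp only at h1 h2
  subst h1
  subst h2
  rfl

lemma b_ge (j : ℕ) : 2 ≤ b j := by
  unfold b
  split_ifs with h
  · exact le_rfl
  · obtain ⟨k, rfl⟩ := Nat.exists_eq_succ_of_ne_zero h
    have := a_succ k
    have := a_ge k
    rw [Nat.succ_eq_add_one]
    omega

lemma sum_b (t : ℕ) : ∑ j : Fin (t + 1), (b j.val + 1) = s t + 1 := by
  induction t with
  | zero => decide
  | succ t ih =>
    rw [Fin.sum_univ_castSucc]
    have h1 : ∑ i : Fin (t + 1), (b (Fin.castSucc i).val + 1) = s t + 1 := ih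
    rw [h1]
    have h2 : s (t + 1) = s t + a (t + 1) := rfl
    have h3 : b (Fin.last (t + 1)).val = a (t + 1) - 1 := by
      simp [b]
    have := a_ge (t + 1)
    omega

lemma card_W (t : ℕ) : Fintype.card (W t) = N t + 1 := by
  rw [Fintype.card_sigma, N_eq]
  simp only [Fintype.card_fin]
  exact sum_b t

/-- The height function showing that `T t` has no cycle. -/
lemma acyclic_T (t : ℕ) : (T t).IsAcyclic := by
  classical
  set h : W t → ℕ := fun x => 2 * x.1.val + (if x.2.val = 0 then 0 else 1) with hh
  have h1 : ∀ u v, (T t).Adj u v → h u ≠ h v := by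
    rintro u v (⟨e1, e2, e3⟩ | ⟨e1, e2, e3⟩) <;> simp only [hh, e1, e2, if_true, if_false] <;> omega
  have h2 : ∀ v u w, (T t).Adj v u → (T t).Adj v w → h u < h v → h w < h v → u = w := by
    intro v u w e f l1 l2
    simp only [hh] at l1 l2
    rcases e with ⟨e1, e2, e3⟩ | ⟨e1, e2, e3⟩ <;> rcases f with ⟨f1, f2, f3⟩ | ⟨f1, f2, f3⟩
    · rw [if_pos e1, if_neg e2] at l1
      rw [if_pos f1, if_neg f2] at l2
      refine W_ext ?_ ?_ <;> omega
    · exact absurd e1 f2
    · exact absurd f1 e2
    · rw [if_pos e1, if_neg e2] at l1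
      rw [if_pos f1, if_neg f2] at l2
      refine W_ext ?_ ?_ <;> omega
  intro v c hc
  have hne : c.support.toFinset.Nonempty := ⟨v, by simp⟩
  obtain ⟨m, hm, hmax⟩ := Finset.exists_max_image c.support.toFinset h hne
  have hm' : m ∈ c.support := by simpa using hm
  set c' := c.rotate m hm' with hc'
  have hcyc : c'.IsCycle := hc.rotate hm'
  have hsup : ∀ x, x ∈ c'.support → h x ≤ h m := by
    intro x hx
    refine hmax x ?_
    rw [List.mem_toFinset]
    exact (SimpleGraph.Walk.mem_support_rotate_iff c m hm').1 hx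
  have hnn := hcyc.not_nil
  have a1 : (T t).Adj m c'.snd := c'.adj_snd hnn
  have a2 : (T t).Adj m c'.penultimate := (c'.adj_penultimate hnn).symm
  have m1 : c'.snd ∈ c'.support := List.mem_of_mem_tail (c'.snd_mem_tail_support hnn)
  have m2 : c'.penultimate ∈ c'.support :=
    List.mem_of_mem_dropLast (c'.penultimate_mem_dropLast_support hnn)
  have l1 := lt_of_le_of_ne (hsup _ m1) (h1 _ _ a1).symm
  have l2 := lt_of_le_of_ne (hsup _ m2) (h1 _ _ a2).symm
  exact hcyc.snd_ne_penultimate (h2 m _ _ a1 a2 l1 l2)

/-- The centre of the `j`-th star. -/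
def ctr {t : ℕ} (j : Fin (t + 1)) : W t := ⟨j, 0⟩

open Classical in
/-- A centre has degree `a j` in `T t`. -/
lemma nbr_ctr {t : ℕ} (j : Fin (t + 1)) :
    (univ.filter fun y => (T t).Adj (ctr j) y).card = a j.val := by
  have h1 : (univ.filter fun y => (T t).Adj (ctr j) y) =
      (univ.image fun i : Fin (b j.val) => (⟨j, i.succ⟩ : W t)) ∪
      (univ.filter fun y : W t => y.2.val = 1 ∧ y.1.val + 1 = j.val) := by
    ext y
    simp only [mem_filter, mem_univ, true_and, mem_union, mem_image]
    constructor
    · rintro (⟨-, e2, e3⟩ | ⟨e1, e2, e3⟩)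
      · rcases e3 with e3 | e3
        · left
          obtain ⟨y1, y2⟩ := y
          have : y1 = j := Fin.ext e3
          subst this
          refine ⟨y2.pred (fun h => e2 (by rw [h]; rfl)), ?_⟩
          simp
        · exact Or.inr e3
      · exact absurd rfl e2
    · rintro (⟨i, rfl⟩ | ⟨e1, e2⟩)
      · exact Or.inl ⟨rfl, by simp, Or.inl rfl⟩
      · exact Or.inl ⟨rfl, by omega, Or.inr ⟨e1, e2⟩⟩
  have h2 : Disjoint (univ.image fun i : Fin (b j.val) => (⟨j, i.succ⟩ : W t))
      (univ.filter fun y : W t => y.2.val = 1 ∧ y.1.val + 1 = j.val) := by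
    rw [disjoint_left]
    intro y hy hy'
    simp only [mem_image, mem_univ, true_and] at hy
    obtain ⟨i, rfl⟩ := hy
    simp only [mem_filter, mem_univ, true_and] at hy'
    omega
  rw [h1, card_union_of_disjoint h2, card_image_of_injective, card_univ, Fintype.card_fin]
  · rcases Nat.eq_zero_or_pos j.val with h0 | h0
    · have : (univ.filter fun y : W t => y.2.val = 1 ∧ y.1.val + 1 = j.val) = ∅ := by
        rw [filter_eq_empty_iff]
        intro y _ h
        omega
      rw [this, h0, card_empty]
      decide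
    · have h3 : (univ.filter fun y : W t => y.2.val = 1 ∧ y.1.val + 1 = j.val).card = 1 := by
        rw [card_eq_one]
        have hj : j.val - 1 < t + 1 := by have := j.2; omega
        have hb := b_ge (j.val - 1)
        refine ⟨⟨⟨j.val - 1, hj⟩, ⟨1, by show 1 < b (j.val - 1) + 1; omega⟩⟩, ?_⟩
        ext y
        simp only [mem_filter, mem_univ, true_and, mem_singleton]
        constructor
        · rintro ⟨e1, e2⟩
          refine W_ext ?_ ?_
          · show y.1.val = j.val - 1
            omega
          · exact e1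
        · rintro rfl
          refine ⟨rfl, ?_⟩
          show j.val - 1 + 1 = j.val
          omega
      rw [h3]
      have h4 : b j.val = a j.val - 1 := by
        unfold b
        rw [if_neg (by omega)]
      have := a_ge j.val
      omega
  · intro i i' h
    simpa using h

open Classical in
/-- Part (ii): at most `t` deletions never equate two maximum degrees in `T t`. -/
lemma not_equated (t : ℕ) (B : Finset (W t)) (hB : B.card ≤ t) : ¬ Equated (T t) (univ \ B) := by
  -- the largest centre outside `B`
  have hne : (univ.filter fun j : Fin (t + 1) => ctr j ∉ B).Nonempty := by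
    by_contra hcon
    rw [not_nonempty_iff_eq_empty, filter_eq_empty_iff] at hcon
    have h1 : (univ.image fun j : Fin (t + 1) => (ctr j : W t)) ⊆ B := by
      intro x hx
      simp only [mem_image, mem_univ, true_and] at hx
      obtain ⟨j, rfl⟩ := hx
      have := hcon (mem_univ j)
      simpa using this
    have h2 := card_le_card h1
    rw [card_image_of_injective _ (fun j j' h => by
      have := congrArg (fun x : W t => x.1) h
      simpa [ctr] using this), card_univ, Fintype.card_fin] at h2
    omega
  obtain ⟨j, hj, hjmax⟩ := exists_max_image _ (fun j : Fin (t + 1) => j.val) hne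
  rw [mem_filter] at hj
  have hj2 := hj.2
  have habove : ∀ k : Fin (t + 1), j.val < k.val → ctr k ∈ B := by
    intro k hk
    by_contra hcon
    have := hjmax k (mem_filter.2 ⟨mem_univ _, hcon⟩)
    omega
  -- few neighbours of `ctr j` are deleted
  set Up : Finset (W t) := (univ.filter fun k : Fin (t + 1) => j.val < k.val).image ctr with hUp
  have hUpc : Up.card = t - j.val := by
    rw [hUp, card_image_of_injective _ (fun j j' h => by
      have := congrArg (fun x : W t => x.1) h
      simpa [ctr] using this)]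
    have h1 : (univ.filter fun k : Fin (t + 1) => j.val < k.val) = Ioi j := by
      ext k
      rw [mem_filter, mem_Ioi]
      exact ⟨fun h => h.2, fun h => ⟨mem_univ _, h⟩⟩
    rw [h1, Fin.card_Ioi]
    omega
  have hUpB : Up ⊆ B := by
    intro x hx
    simp only [hUp, mem_image, mem_filter, mem_univ, true_and] at hx
    obtain ⟨k, hk, rfl⟩ := hx
    exact habove k hk
  set Nb := univ.filter fun y => (T t).Adj (ctr j) y with hNb
  have hNbc : Nb.card = a j.val := nbr_ctr j
  have hdisj : Disjoint Up (B ∩ Nb) := by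
    rw [disjoint_left]
    intro x hx hx'
    simp only [hUp, mem_image, mem_filter, mem_univ, true_and] at hx
    obtain ⟨k, hk, rfl⟩ := hx
    have h3 := (mem_filter.1 (mem_inter.1 hx').2).2
    rcases h3 with ⟨-, e2, -⟩ | ⟨-, e2, -⟩
    · exact e2 rfl
    · exact e2 rfl
  have hBN : (B ∩ Nb).card + (t - j.val) ≤ t := by
    rw [← hUpc, add_comm, ← card_union_of_disjoint hdisj]
    exact (card_le_card (union_subset hUpB inter_subset_left)).trans hB
  have hdj : degIn (T t) (univ \ B) (ctr j) + (B ∩ Nb).card = a j.val := by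
    rw [degIn_eq, ← hNbc]
    have h1 : ((univ \ B).filter fun y => (T t).Adj (ctr j) y) = Nb \ B := by
      ext y
      simp only [mem_filter, mem_sdiff, mem_univ, true_and, hNb]
      tauto
    rw [h1, inter_comm]
    exact card_sdiff_add_card_inter Nb B
  have hjt : j.val ≤ t := by have := j.2; omega
  -- every other remaining vertex has smaller degree
  have hother : ∀ w, w ∉ B → w ≠ ctr j →
      degIn (T t) (univ \ B) w < degIn (T t) (univ \ B) (ctr j) := by
    intro w hw hwj
    by_cases hw0 : w.2.val = 0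
    · -- a centre of smaller index
      have hwc : w = ctr w.1 := W_ext rfl hw0
      have hlt : w.1.val < j.val := by
        rcases lt_trichotomy w.1.val j.val with h | h | h
        · exact h
        · exact absurd (W_ext h (by rw [hw0]; rfl)) hwj
        · exact absurd (hwc ▸ habove w.1 h) hw
      have h1 : degIn (T t) (univ \ B) w ≤ a w.1.val := by
        rw [← nbr_ctr w.1, degIn_eq]
        refine card_le_card ?_
        intro y hy
        rw [mem_filter] at hy ⊢
        exact ⟨mem_univ _, hwc ▸ hy.2⟩
      obtain ⟨k, hk⟩ : ∃ k, j.val = k + 1 := ⟨j.val - 1, by omega⟩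
      have h2 : a w.1.val ≤ a k := a_mono (by omega)
      have h3 := a_succ k
      rw [← hk] at h3
      omega
    · -- a leaf
      have hsub : ((univ \ B).filter fun y => (T t).Adj w y) ⊆
          univ.filter fun y : W t => y.2.val = 0 ∧ y.1.val ≤ j.val ∧
            (y.1.val = w.1.val ∨ y.1.val = w.1.val + 1) := by
        intro y hy
        simp only [mem_filter, mem_sdiff, mem_univ, true_and] at hy ⊢
        obtain ⟨hyB, hadj⟩ := hy
        rcases hadj with ⟨e1, -, -⟩ | ⟨e1, -, e3⟩
        · exact absurd e1 hw0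
        · refine ⟨e1, ?_, by omega⟩
          by_contra hcon
          push Not at hcon
          have hyc : y = ctr y.1 := W_ext rfl e1
          exact hyB (hyc ▸ habove y.1 hcon)
      have hle : degIn (T t) (univ \ B) w ≤ (univ.filter fun y : W t => y.2.val = 0 ∧
          y.1.val ≤ j.val ∧ (y.1.val = w.1.val ∨ y.1.val = w.1.val + 1)).card := by
        rw [degIn_eq]
        exact card_le_card hsub
      rcases Nat.eq_zero_or_pos j.val with h0 | h0
      · have h4 : (univ.filter fun y : W t => y.2.val = 0 ∧
          y.1.val ≤ j.val ∧ (y.1.val = w.1.val ∨ y.1.val = w.1.val + 1)).card ≤ 1 := by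
          rw [card_le_one]
          intro y hy y' hy'
          simp only [mem_filter, mem_univ, true_and] at hy hy'
          exact W_ext (by omega) (by omega)
        have h5 : a j.val = 2 := by rw [h0]; decide
        omega
      · have h4 : (univ.filter fun y : W t => y.2.val = 0 ∧
          y.1.val ≤ j.val ∧ (y.1.val = w.1.val ∨ y.1.val = w.1.val + 1)).card ≤ 2 := by
          refine (card_le_card_of_injOn (fun y : W t => y.1.val)
            (t := {w.1.val, w.1.val + 1}) ?_ ?_).trans card_le_two
          · intro y hy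
            simp only [coe_filter, mem_univ, true_and, Set.mem_ofPred_eq] at hy
            simp only [coe_insert, coe_singleton, Set.mem_insert_iff, Set.mem_singleton_iff]
            omega
          · intro y hy y' hy' hyy
            simp only [coe_filter, mem_univ, true_and, Set.mem_ofPred_eq] at hy hy'
            exact W_ext hyy (by omega)
        obtain ⟨k, hk⟩ : ∃ k, j.val = k + 1 := ⟨j.val - 1, by omega⟩
        have h3 := a_succ k
        rw [← hk] at h3
        have := a_ge k
        omega
  have hdpos : 1 ≤ degIn (T t) (univ \ B) (ctr j) := by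
    have : j.val + 1 ≤ a j.val := by
      rcases Nat.eq_zero_or_pos j.val with h0 | h0
      · rw [h0]; decide
      · obtain ⟨k, hk⟩ : ∃ k, j.val = k + 1 := ⟨j.val - 1, by omega⟩
        have h3 := a_succ k
        rw [← hk] at h3
        omega
    omega
  rintro (⟨u, hu, v, hv, huv, h1, h2⟩ | h)
  · have hjm : ctr j ∈ (univ \ B : Finset (W t)) := mem_sdiff.2 ⟨mem_univ _, hj2⟩
    by_cases huj : u = ctr j
    · have hvj : v ≠ ctr j := fun h => huv (huj.trans h.symm)
      exact absurd (h2 _ hjm) (not_le.2 (hother v (mem_sdiff.1 hv).2 hvj))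
    · exact absurd (h1 _ hjm) (not_le.2 (hother u (mem_sdiff.1 hu).2 huj))
  · rw [degIn_eq] at hdpos
    obtain ⟨y, hy⟩ := card_pos.1 hdpos
    rw [mem_filter] at hy
    have h3 : ({ctr j, y} : Finset (W t)) ⊆ univ \ B := by
      intro x hx
      rw [mem_insert, mem_singleton] at hx
      rcases hx with rfl | rfl
      · exact mem_sdiff.2 ⟨mem_univ _, hj2⟩
      · exact hy.1
    have h4 := card_le_card h3
    rw [card_pair hy.2.ne] at h4
    omega

/-- Part (ii). -/
theorem sharp (t : ℕ) : t + 1 ≤ f (T t) := by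
  unfold f
  refine le_csInf ⟨_, univ, rfl, Or.inr (by simp)⟩ ?_
  rintro k ⟨B, rfl, hE⟩
  by_contra hcon
  exact not_equated t B (by omega) hE

/-- **Main theorem.**  For every `t ≥ 1`, `N(t) = (t³ + 6t² + 17t + 12)/6` is an integer, every
forest on at most `N(t)` vertices satisfies `f ≤ t`, and there is a forest on `N(t) + 1` vertices
with `f ≥ t + 1`. -/
theorem result : ∀ t : ℕ, 1 ≤ t →
    6 * N t = t ^ 3 + 6 * t ^ 2 + 17 * t + 12 ∧
    (∀ (V : Type) [Fintype V] [DecidableEq V] (F : SimpleGraph V), F.IsAcyclic →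
      Fintype.card V ≤ N t → f F ≤ t) ∧
    (∃ (V : Type) (_ : Fintype V) (_ : DecidableEq V) (F : SimpleGraph V), F.IsAcyclic ∧
      Fintype.card V = N t + 1 ∧ t + 1 ≤ f F) := by
  intro t _
  refine ⟨six_N t, fun V _ _ F hF hn => upper hF hn, W t, inferInstance, inferInstance, T t,
    acyclic_T t, card_W t, sharp t⟩

end Pool.Agent.Run7.h513.Kept.ForestThreshold
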