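import Mathlib

/-!
# Kotzig's characterisation of strongly regular self-complementary graphs fails

The circulant graph on `ZMod 13` with connection set `{±1, ±2, ±4}` is regular and
self-complementary, every vertex is fixed by an isomorphism-permutation, every edge joins two
consecutive vertices of a cycle of an isomorphism-permutation, but it is not strongly regular.
-/

namespace Pool.Agent.Run7.h513.Kept.KotzigStrong

/-- `P` is an isomorphism-permutation of `G`: an isomorphism from `G` onto its complement. -/
def IsAnti {V : Type} (G : SimpleGraph V) (P : Equiv.Perm V) : Prop :=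
  ∀ u v : V, u ≠ v → (G.Adj u v ↔ ¬ G.Adj (P u) (P v))

/-- The set `F(G)` of vertices fixed by at least one isomorphism-permutation. -/
def F {V : Type} (G : SimpleGraph V) : Set V := {v | ∃ P : Equiv.Perm V, IsAnti G P ∧ P v = v}

/-- The set `N(G)` of edges `uv` for which some isomorphism-permutation `P` has `P u = v` or
`P v = u`. -/
def N {V : Type} (G : SimpleGraph V) : Set (Sym2 V) :=
  {e | e ∈ G.edgeSet ∧ ∃ u v, e = s(u, v) ∧ ∃ P : Equiv.Perm V, IsAnti G P ∧ (P u = v ∨ P v = u)}

/-- Regular graphs. -/
def Regular {V : Type} (G : SimpleGraph V) : Prop := ∃ d, ∀ v, (G.neighborSet v).ncard = d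

/-- Strongly regular: regular, every edge lies in the same number of triangles, and every two
distinct non-adjacent vertices have the same number of common neighbours. -/
def StronglyRegular {V : Type} (G : SimpleGraph V) : Prop :=
  Regular G ∧ (∃ l, ∀ u v, G.Adj u v → (G.commonNeighbors u v).ncard = l) ∧
    ∃ m, ∀ u v, u ≠ v → ¬ G.Adj u v → (G.commonNeighbors u v).ncard = m

/-- The connection set `{±1, ±2, ±4}` (the zero element excluded). -/
def conn (d : ZMod 13) : Bool := d == 1 || d == 12 || d == 2 || d == 11 || d == 4 || d == 9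

/-- The circulant graph on `ZMod 13` with connection set `{±1, ±2, ±4}`. -/
def G13 : SimpleGraph (ZMod 13) where
  Adj u v := conn (v - u) = true
  symm := ⟨by decide +kernel⟩
  loopless := ⟨by decide +kernel⟩

instance : DecidableRel G13.Adj := fun u v => inferInstanceAs (Decidable (conn (v - u) = true))

/-- The permutation `x ↦ 5 x + c`. -/
def P (c : ZMod 13) : Equiv.Perm (ZMod 13) where
  toFun x := 5 * x + c
  invFun x := 8 * (x - c)
  left_inv x := by
    have h : (8 : ZMod 13) * 5 = 1 := by decide
    linear_combination x * h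
  right_inv x := by
    have h : (8 : ZMod 13) * 5 = 1 := by decide
    linear_combination (x - c) * h

lemma conn_five : ∀ d : ZMod 13, d ≠ 0 → (conn d = true ↔ ¬ conn (5 * d) = true) := by decide

lemma anti (c : ZMod 13) : IsAnti G13 (P c) := by
  intro u v huv
  have h := conn_five (v - u) (sub_ne_zero.mpr huv.symm)
  have e : P c v - P c u = 5 * (v - u) := by
    change (5 * v + c) - (5 * u + c) = _
    ring
  change (conn (v - u) = true ↔ ¬ conn (P c v - P c u) = true)
  rw [e]
  exact h

lemma F13 : F G13 = Set.univ := by
  ext v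
  simp only [Set.mem_univ, iff_true]
  refine ⟨P (-4 * v), anti _, ?_⟩
  change 5 * v + -4 * v = v
  ring

lemma N13 : N G13 = G13.edgeSet := by
  ext e
  constructor
  · exact fun h => h.1
  · intro h
    refine ⟨h, ?_⟩
    induction e using Sym2.ind with
    | _ u v =>
      refine ⟨u, v, rfl, P (v - 5 * u), anti _, Or.inl ?_⟩
      change 5 * u + (v - 5 * u) = v
      ring

lemma ncard_common (u v : ZMod 13) : (G13.commonNeighbors u v).ncard
    = (Finset.univ.filter fun w : ZMod 13 => conn (w - u) = true ∧ conn (w - v) = true).card := by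
  rw [← Set.ncard_coe_finset]
  congr 1
  ext w
  simp [SimpleGraph.mem_commonNeighbors, G13]

lemma regular13 (v : ZMod 13) : (G13.neighborSet v).ncard = 6 := by
  have h : G13.neighborSet v
      = ((Finset.univ.filter fun w : ZMod 13 => conn (w - v) = true : Finset (ZMod 13)) :
        Set (ZMod 13)) := by
    ext w
    simp [G13]
  rw [h, Set.ncard_coe_finset]
  clear h
  revert v
  decide +kernel

lemma not_srg : ¬ StronglyRegular G13 := by
  rintro ⟨-, ⟨l, hl⟩, -⟩
  have h1 := hl 0 1 (by decide)
  have h2 := hl 0 2 (by decide)
  have h4 := hl 0 4 (by decide)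
  rw [ncard_common] at h1 h2 h4
  have e1 : (Finset.univ.filter fun w : ZMod 13 => conn (w - 0) = true ∧ conn (w - 1) = true).card
      ≠ (Finset.univ.filter fun w : ZMod 13 => conn (w - 0) = true ∧ conn (w - 2) = true).card ∨
      (Finset.univ.filter fun w : ZMod 13 => conn (w - 0) = true ∧ conn (w - 1) = true).card
      ≠ (Finset.univ.filter fun w : ZMod 13 => conn (w - 0) = true ∧ conn (w - 4) = true).card := by
    decide +kernel
  rcases e1 with e | e
  · exact e (h1.trans h2.symm)
  · exact e (h1.trans h4.symm)

/-- There is a regular self-complementary graph `G` on `13` vertices with `F(G) = V(G)` and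
`N(G) = E(G)` that is not strongly regular. -/
theorem result : ∃ G : SimpleGraph (Fin 13), Regular G ∧ (∃ Q : Equiv.Perm _, IsAnti G Q) ∧
    F G = Set.univ ∧ N G = G.edgeSet ∧ ¬ StronglyRegular G :=
  ⟨G13, ⟨6, regular13⟩, ⟨P 0, anti 0⟩, F13, N13, not_srg⟩

end Pool.Agent.Run7.h513.Kept.KotzigStrong
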