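import Mathlib

/-!
# Permutations that strongly avoid 321 and 1342

A permutation strongly avoids a set of patterns if the permutation and its square avoid all of them.
We show that the number of the permutations of `n ≥ 1` elements which strongly avoid `321` and
`1342` is `2 F (n + 2) - n - 2`.

Outline.  Permutations of `n` elements are regarded as permutations of `ℕ` which fix all `i ≥ n`
(positions and values start at `0`).  Let `σ` strongly avoid the two patterns and let `q` be the
position of `n - 1`.  If `σ (n - 1) ≠ n - 1` let `r > q` be the last position with `σ r ≠ r - 1`.  The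
avoidance of the two patterns by `σ` determines `σ` completely in terms of `q`, `r` and `σ r`, and an
inspection of `σ * σ` shows that `σ` interchanges `n - 2` and `n - 1` or is a rotation
`i ↦ i + m` modulo `n`.  So the number `c n` satisfies `c n = c (n - 1) + c (n - 2) + (n - 1)` for
`n ≥ 3`.
-/

namespace Pool.Agent.Run7.h513.Kept.StrongAvoidance

open Equiv

/-- The permutation `π` of `{0, ..., n - 1}` contains the pattern `τ`: at the positions
`e 0 < e 1 < ...` its entries are in the same relative order as the numbers `τ 0, τ 1, ...`. -/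
def Contains {n m : ℕ} (π : Perm (Fin n)) (τ : Fin m → ℕ) : Prop :=
  ∃ e : Fin m → Fin n, StrictMono e ∧ ∀ j k, π (e j) < π (e k) ↔ τ j < τ k

open Classical in
/-- The permutations `π` of `n` elements such that both `π` and `π * π` avoid `321` and `1342`. -/
noncomputable def strong (n : ℕ) : Finset (Perm (Fin n)) :=
  Finset.univ.filter fun π =>
    (¬ Contains π ![3, 2, 1] ∧ ¬ Contains π ![1, 3, 4, 2]) ∧
    (¬ Contains (π * π) ![3, 2, 1] ∧ ¬ Contains (π * π) ![1, 3, 4, 2])

/-! ## Permutations of `ℕ` -/

/-- no pattern 321 -/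
def A3 (f : ℕ → ℕ) : Prop := ∀ i j k, i < j → j < k → f j < f i → f k < f j → False

/-- no pattern 1342 -/
def A4 (f : ℕ → ℕ) : Prop :=
  ∀ i j k l, i < j → j < k → k < l → f i < f l → f l < f j → f j < f k → False

/-- the strongly avoiding permutations of `{0, ..., n - 1}`, extended by fixed points -/
def S (n : ℕ) : Set (Perm ℕ) :=
  {σ | (∀ i, n ≤ i → σ i = i) ∧ A3 σ ∧ A4 σ ∧ A3 (fun i => σ (σ i)) ∧ A4 (fun i => σ (σ i))}

/-! ## The structure of the avoiding permutations -/

section structure_

variable {σ : Perm ℕ} {n : ℕ}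

theorem lt_of_fix (hf : ∀ i, n ≤ i → σ i = i) {i : ℕ} (hi : i < n) : σ i < n := by
  by_contra h
  have h1 := hf (σ i) (not_lt.mp h)
  have h2 := σ.injective h1
  omega

/-- the case in which all positions after that of the maximum are shifted -/
theorem case_shift (hn : 3 ≤ n) (hf : ∀ i, n ≤ i → σ i = i)
    (h4 : A4 (fun i => σ (σ i))) {q : ℕ} (hq : σ q = n - 1) (hqn : q < n - 1)
    (hs : ∀ x, q < x → x < n → σ x = x - 1) :
    (σ (n - 1) = n - 2 ∧ σ (n - 2) = n - 1) ∨
      ∃ m, 0 < m ∧ m < n ∧ ∀ i, i < n → σ i = if i + m < n then i + m else i + m - n := by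
  rcases Nat.eq_zero_or_pos q with h0 | h0
  · right
    refine ⟨n - 1, by omega, by omega, fun i hi => ?_⟩
    subst h0
    rcases Nat.eq_zero_or_pos i with h | h
    · subst h
      rw [hq, if_pos (by omega)]
      omega
    · rw [hs i h hi, if_neg (by omega)]
      omega
  · by_cases h2 : q = n - 2
    · left
      refine ⟨?_, by rw [← h2]; exact hq⟩
      rw [hs (n - 1) (by omega) (by omega)]
      omega
    · exfalso
      have hlow : ∀ i, i < q → σ i < q := by
        intro i hi
        by_contra h
        have h1 : σ i < n := lt_of_fix hf (by omega)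
        have h2 : σ i ≠ n - 1 := by
          intro h3
          have := σ.injective (h3.trans hq.symm)
          omega
        have h3 := hs (σ i + 1) (by omega) (by omega)
        have h4 := σ.injective (h3.trans (by omega : σ i + 1 - 1 = σ i))
        omega
      have e1 : σ (σ q) = n - 2 := by
        rw [hq, hs (n - 1) (by omega) (by omega)]
        omega
      have e2 : σ (σ (q + 1)) = n - 1 := by
        rw [hs (q + 1) (by omega) (by omega), Nat.add_sub_cancel, hq]
      have e3 : σ (σ (q + 2)) = q := by
        rw [hs (q + 2) (by omega) (by omega), show q + 2 - 1 = q + 1 by omega,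
          hs (q + 1) (by omega) (by omega), Nat.add_sub_cancel]
      have e0 : σ (σ 0) < q := hlow _ (hlow 0 h0)
      refine h4 0 q (q + 1) (q + 2) h0 (by omega) (by omega) ?_ ?_ ?_
      · show σ (σ 0) < σ (σ (q + 2))
        omega
      · show σ (σ (q + 2)) < σ (σ q)
        omega
      · show σ (σ q) < σ (σ (q + 1))
        omega

/-- the explicit form of `σ` in the other case -/
theorem explicit (hf : ∀ i, n ≤ i → σ i = i) (h3 : A3 σ) (h4 : A4 σ)
    {q r : ℕ} (hq : σ q = n - 1) (hqr : q < r) (hrn : r < n)
    (hr : σ r ≠ r - 1) (hs : ∀ x, r < x → x < n → σ x = x - 1) :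
    ∃ u, 1 ≤ u ∧ u ≤ q ∧ u < r ∧ (∀ i, i < u → σ i = r - u + i) ∧
      (∀ i, u ≤ i → i < q → σ i = i - u) ∧ (∀ i, q < i → i ≤ r → σ i = i - u - 1) := by
  -- the entries after position `q` increase
  have inc : ∀ i j, q < i → i < j → j < n → σ i < σ j := by
    intro i j hi hj hjn
    by_contra h
    have h1 : σ i ≠ σ j := fun h => by
      have := σ.injective h
      omega
    have h2 : σ i < n := lt_of_fix hf (by omega)
    have h5 : σ i ≠ n - 1 := by
      intro h6
      have := σ.injective (h6.trans hq.symm)
      omega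
    exact h3 q i j hi hj (by omega) (by omega)
  have hr1 : σ r < r - 1 := by
    have h1 : σ r < n := lt_of_fix hf hrn
    have h2 : σ r ≠ n - 1 := by
      intro h6
      have := σ.injective (h6.trans hq.symm)
      omega
    by_contra h
    have h5 := hs (σ r + 1) (by omega) (by omega)
    have h6 := σ.injective (h5.trans (by omega : σ r + 1 - 1 = σ r))
    omega
  -- values below `r`
  have hb : ∀ i, i < q → σ i < r := by
    intro i hi
    by_contra h
    have h1 : σ i < n := lt_of_fix hf (by omega)
    have h2 : σ i ≠ n - 1 := by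
      intro h6
      have := σ.injective (h6.trans hq.symm)
      omega
    have h5 := hs (σ i + 1) (by omega) (by omega)
    have h6 := σ.injective (h5.trans (by omega : σ i + 1 - 1 = σ i))
    omega
  have hc : ∀ v, σ r < v → v < r → ∃ x, x < q ∧ σ x = v := by
    intro v hv hvr
    refine ⟨σ.symm v, ?_, σ.apply_symm_apply v⟩
    by_contra h
    have e := σ.apply_symm_apply v
    set x := σ.symm v with hx
    have h1 : x < n := by
      by_contra h1
      have := hf x (by omega)
      omega
    have h2 : x ≠ q := by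
      intro h2
      rw [h2, hq] at e
      omega
    have h5 : x ≠ r := by
      intro h2
      rw [h2] at e
      omega
    rcases lt_trichotomy x r with h6 | h6 | h6
    · have := inc x r (by omega) h6 hrn
      omega
    · exact h5 h6
    · have := hs x h6 h1
      omega
  have hd : ∀ i j, i < j → j < q → σ r < σ j → σ r < σ i := by
    intro i j hij hj hv
    by_contra h
    have h1 : σ i ≠ σ r := fun h => by
      have := σ.injective h
      omega
    have h2 : σ j < σ q := by
      rw [hq]
      have h5 := hb j hj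
      omega
    exact h4 i j q r hij hj hqr (by omega) hv h2
  have he : ∀ i j, i < j → j < q → σ r < σ j → σ i < σ j := by
    intro i j hij hj hv
    by_contra h
    have h1 : σ i ≠ σ j := fun h => by
      have := σ.injective h
      omega
    exact h3 i j r hij (by omega) (by omega) hv
  obtain ⟨u, hu⟩ : ∃ u, u + (σ r + 1) = r := ⟨r - (σ r + 1), by omega⟩
  have hfirst : ∀ i, i < u → i < q ∧ σ i = r - u + i := by
    intro i
    induction i using Nat.strong_induction_on with
    | _ i ih =>
      intro hi
      obtain ⟨x, hxq, hx⟩ := hc (r - u + i) (by omega) (by omega)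
      rcases lt_trichotomy x i with h | h | h
      · have := (ih x h (by omega)).2
        omega
      · subst h
        exact ⟨hxq, hx⟩
      · exfalso
        have h1 := hd i x h hxq (by omega)
        have h2 := he i x h hxq (by omega)
        obtain ⟨k, hk⟩ : ∃ k, σ i = r - u + k := ⟨σ i - (r - u), by omega⟩
        have h5 := (ih k (by omega) (by omega)).2
        have h6 := σ.injective (hk.trans h5.symm)
        omega
  have hu1 : 1 ≤ u := by omega
  have huq : u ≤ q := by
    have := (hfirst (u - 1) (by omega)).1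
    omega
  have h0 : σ 0 = r - u := by
    have := (hfirst 0 (by omega)).2
    omega
  -- the remaining values
  have hg : ∀ i, u ≤ i → i ≤ r → i ≠ q → σ i < r - u := by
    intro i hi hir hiq
    rcases lt_or_gt_of_ne hiq with h | h
    · by_contra h1
      have h2 := hb i h
      obtain ⟨k, hk⟩ : ∃ k, σ i = r - u + k := ⟨σ i - (r - u), by omega⟩
      have h5 := (hfirst k (by omega)).2
      have h6 := σ.injective (hk.trans h5.symm)
      omega
    · rcases Nat.lt_or_ge i r with h1 | h1
      · have := inc i r h h1 hrn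
        omega
      · have : i = r := by omega
        subst this
        omega
  have hh : ∀ i j, u ≤ i → i < j → j ≤ r → i ≠ q → j ≠ q → σ i < σ j := by
    intro i j hi hij hj hiq hjq
    by_contra h
    have h1 : σ i ≠ σ j := fun h => by
      have := σ.injective h
      omega
    have h2 := hg i hi (by omega) hiq
    exact h3 0 i j (by omega) hij (by omega) (by omega)
  have hpos : ∀ v, v < r - u → ∃ x, u ≤ x ∧ x ≤ r ∧ x ≠ q ∧ σ x = v := by
    intro v hv
    have e := σ.apply_symm_apply v
    refine ⟨σ.symm v, ?_, ?_, ?_, e⟩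
    · by_contra h
      have := (hfirst (σ.symm v) (by omega)).2
      omega
    · by_contra h
      by_cases h1 : σ.symm v < n
      · have := hs _ (not_le.mp h) h1
        omega
      · have := hf _ (not_lt.mp h1)
        omega
    · intro h
      rw [h, hq] at e
      omega
  have hval : ∀ i, u ≤ i → i ≤ r → i ≠ q → σ i = if i < q then i - u else i - u - 1 := by
    intro i
    induction i using Nat.strong_induction_on with
    | _ i ih =>
      intro hi hir hiq
      have hv : (if i < q then i - u else i - u - 1) < r - u := by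
        split_ifs <;> omega
      obtain ⟨x, hx1, hx2, hx3, hx4⟩ := hpos _ hv
      rcases lt_trichotomy x i with h | h | h
      · exfalso
        have h1 := ih x h hx1 hx2 hx3
        rw [h1] at hx4
        split_ifs at hx4 <;> omega
      · subst h
        exact hx4
      · exfalso
        have h1 := hh i x hi h hx2 hiq hx3
        rw [hx4] at h1
        set k := if σ i < q - u then σ i + u else σ i + u + 1 with hk
        have hk1 : u ≤ k := by rw [hk]; split_ifs <;> omega
        have hk2 : k < i := by
          rw [hk]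
          split_ifs at h1 ⊢ <;> omega
        have hk3 : k ≠ q := by
          rw [hk]
          split_ifs <;> omega
        have h5 := ih k hk2 hk1 (by omega) hk3
        have h6 : (if k < q then k - u else k - u - 1) = σ i := by
          rw [hk]
          split_ifs <;> omega
        have h7 := σ.injective (h5.trans h6)
        omega
  refine ⟨u, hu1, huq, by omega, fun i hi => (hfirst i hi).2, fun i hi hiq => ?_,
    fun i hi hir => ?_⟩
  · rw [hval i hi (by omega) (by omega), if_pos hiq]
  · rw [hval i (by omega) hir (by omega), if_neg (by omega)]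

/-- The main step: a permutation in `S n` fixes the last point, interchanges the last two points, or
is a rotation. -/
theorem structure_main (hn : 3 ≤ n) (hσ : σ ∈ S n) :
    σ (n - 1) = n - 1 ∨ (σ (n - 1) = n - 2 ∧ σ (n - 2) = n - 1) ∨
      ∃ m, 0 < m ∧ m < n ∧ ∀ i, i < n → σ i = if i + m < n then i + m else i + m - n := by
  classical
  obtain ⟨hf, h3, h4, h33, h44⟩ := hσ
  obtain ⟨q, hq⟩ : ∃ q, σ q = n - 1 := ⟨σ.symm (n - 1), σ.apply_symm_apply _⟩
  have hqn : q < n := by
    by_contra h
    have := hf q (by omega)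
    omega
  rcases Nat.lt_or_ge q (n - 1) with hqn1 | hqn1
  swap
  · left
    have : q = n - 1 := by omega
    rw [this] at hq
    exact hq
  right
  by_cases hex : ∃ r, q < r ∧ r < n ∧ σ r ≠ r - 1
  swap
  · exact case_shift hn hf h44 hq hqn1 fun x h1 h2 => by
      by_contra h
      exact hex ⟨x, h1, h2, h⟩
  obtain ⟨r, ⟨hqr, hrn, hr⟩, hmax⟩ : ∃ r, (q < r ∧ r < n ∧ σ r ≠ r - 1) ∧
      ∀ x, r < x → x < n → σ x = x - 1 := by
    obtain ⟨r0, hr0⟩ := hex
    refine ⟨Nat.findGreatest (fun r => q < r ∧ r < n ∧ σ r ≠ r - 1) n,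
      Nat.findGreatest_spec (P := fun r => q < r ∧ r < n ∧ σ r ≠ r - 1) (by omega) hr0,
      fun x h1 h2 => ?_⟩
    have h5 := Nat.findGreatest_is_greatest h1 (by omega)
    have h6 := Nat.findGreatest_spec (P := fun r => q < r ∧ r < n ∧ σ r ≠ r - 1)
      (n := n) (by omega) hr0
    by_contra h
    exact h5 ⟨by omega, h2, h⟩
  obtain ⟨u, hu1, huq, hur, F1, F2, F4⟩ := explicit hf h3 h4 hq hqr hrn hr hmax
  obtain ⟨v, hv⟩ : ∃ v, q = u + v := ⟨q - u, by omega⟩
  obtain ⟨w, hw⟩ : ∃ w, r = q + w := ⟨r - q, by omega⟩
  have B3 : ∀ i j k, i < j → j < k → σ (σ j) < σ (σ i) → σ (σ k) < σ (σ j) → False := h33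
  have B4 : ∀ i j k l, i < j → j < k → k < l → σ (σ i) < σ (σ l) → σ (σ l) < σ (σ j) →
    σ (σ j) < σ (σ k) → False := h44
  rcases Nat.lt_or_ge r (n - 1) with hr1 | hr1
  · exfalso
    have e1 : σ (σ q) = n - 2 := by
      rw [hq, hmax (n - 1) (by omega) (by omega)]
      omega
    have e2 : σ (σ (r + 1)) = v + w - 1 := by
      rw [hmax (r + 1) (by omega) (by omega), Nat.add_sub_cancel, F4 r hqr le_rfl]
      omega
    rcases Nat.lt_or_ge u w with h | h
    · have e3 : σ (σ 0) = v + w - u - 1 := by
        rw [F1 0 (by omega), F4 (r - u + 0) (by omega) (by omega)]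
        omega
      have e4 : σ (σ (q + u + 1)) = n - 1 := by
        rw [F4 (q + u + 1) (by omega) (by omega), show q + u + 1 - u - 1 = q by omega, hq]
      exact B4 0 q (q + u + 1) (r + 1) (by omega) (by omega) (by omega) (by omega) (by omega)
        (by omega)
    · have e3 : σ (σ (u - w)) = n - 1 := by
        rw [F1 (u - w) (by omega), show r - u + (u - w) = q by omega, hq]
      exact B3 (u - w) q (r + 1) (by omega) (by omega) (by omega) (by omega)
  · have hrn1 : r = n - 1 := by omega
    rcases Nat.eq_zero_or_pos v with hv0 | hv0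
    · right
      refine ⟨w, by omega, by omega, fun i hi => ?_⟩
      rcases lt_trichotomy i q with h | h | h
      · rw [F1 i (by omega), if_pos (by omega)]
        omega
      · rw [h, hq, if_pos (by omega)]
        omega
      · rw [F4 i h (by omega), if_neg (by omega)]
        omega
    · exfalso
      have e1 : σ (σ u) = v + w := by
        rw [F2 u le_rfl (by omega), Nat.sub_self, F1 0 (by omega)]
        omega
      have e2 : σ (σ q) = v + w - 1 := by
        rw [hq, ← hrn1, F4 r hqr le_rfl]
        omega
      have e3 : σ (n - 1) = v + w - 1 := by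
        rw [← hrn1, F4 r hqr le_rfl]
        omega
      rcases lt_trichotomy (v + w - 1) q with h | h | h
      · rcases Nat.lt_or_ge (v + w - 1) u with h1 | h1
        · rcases Nat.lt_or_ge (v + w) u with h2 | h2
          · have e4 : σ (σ 0) = 2 * (v + w) := by
              rw [F1 0 (by omega), F1 (r - u + 0) (by omega)]
              omega
            exact B3 0 u q (by omega) (by omega) (by omega) (by omega)
          · have e4 : σ (σ v) = n - 1 := by
              rw [F1 v (by omega), show r - u + v = q by omega, hq]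
            exact B3 v u q (by omega) (by omega) (by omega) (by omega)
        · have e4 : σ (σ (n - 1)) = v + w - 1 - u := by
            rw [e3, F2 _ h1 h]
          exact B3 u q (n - 1) (by omega) (by omega) (by omega) (by omega)
      · have e4 : σ (σ (n - 2)) = q - 1 - u := by
          rw [F4 (n - 2) (by omega) (by omega), show n - 2 - u - 1 = q - 1 by omega,
            F2 (q - 1) (by omega) (by omega)]
        exact B3 u q (n - 2) (by omega) (by omega) (by omega) (by omega)
      · have e4 : σ (σ (n - 1)) = v + w - 1 - u - 1 := by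
          rw [e3, F4 _ h (by omega)]
        exact B3 u q (n - 1) (by omega) (by omega) (by omega) (by omega)

end structure_

/-! ## The recursion -/

section counting

/-- for functions fixing all `i ≥ N` it is enough to look at the positions below `N` -/
theorem A3_of {f : ℕ → ℕ} {N : ℕ} (hf : ∀ i, N ≤ i → f i = i) (hl : ∀ i, i < N → f i < N)
    (h : ∀ i j k, i < j → j < k → k < N → f j < f i → f k < f j → False) : A3 f := by
  intro i j k hij hjk h1 h2
  rcases Nat.lt_or_ge k N with hk | hk
  · exact h i j k hij hjk hk h1 h2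
  · rw [hf k hk] at h2
    rcases Nat.lt_or_ge j N with hj | hj
    · have := hl j hj
      omega
    · rw [hf j hj] at h2
      omega

theorem A4_of {f : ℕ → ℕ} {N : ℕ} (hf : ∀ i, N ≤ i → f i = i) (hl : ∀ i, i < N → f i < N)
    (h : ∀ i j k l, i < j → j < k → k < l → l < N → f i < f l → f l < f j → f j < f k → False) :
    A4 f := by
  intro i j k l hij hjk hkl h1 h2 h3
  rcases Nat.lt_or_ge l N with hk | hk
  · exact h i j k l hij hjk hkl hk h1 h2 h3
  · rw [hf l hk] at h2
    rcases Nat.lt_or_ge j N with hj | hj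
    · have := hl j hj
      omega
    · rw [hf j hj] at h2
      omega

/-- transport of membership between permutations agreeing below `N` -/
theorem mem_S_of {σ τ : Perm ℕ} {N M : ℕ} (hσ : ∀ i, N ≤ i → σ i = i) (hτ : τ ∈ S M)
    (h : ∀ i, i < N → τ i = σ i) : σ ∈ S N := by
  obtain ⟨-, h1, h2, h3, h4⟩ := hτ
  have hl : ∀ i, i < N → σ i < N := fun i hi => lt_of_fix hσ hi
  have hσ2 : ∀ i, N ≤ i → (fun i => σ (σ i)) i = i := fun i hi => by
    show σ (σ i) = i
    rw [hσ i hi, hσ i hi]
  have hl2 : ∀ i, i < N → (fun i => σ (σ i)) i < N := fun i hi => hl _ (hl i hi)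
  have h' : ∀ i, i < N → τ (τ i) = σ (σ i) := fun i hi => by
    rw [h i hi, h _ (hl i hi)]
  refine ⟨hσ, A3_of hσ hl fun i j k a b c d e => ?_, A4_of hσ hl fun i j k l a b c d e f g => ?_,
    A3_of hσ2 hl2 fun i j k a b c d e => ?_, A4_of hσ2 hl2 fun i j k l a b c d e f g => ?_⟩
  · rw [← h i (by omega), ← h j (by omega)] at d
    rw [← h k (by omega), ← h j (by omega)] at e
    exact h1 i j k a b d e
  · rw [← h i (by omega), ← h l (by omega)] at e
    rw [← h l (by omega), ← h j (by omega)] at f
    rw [← h j (by omega), ← h k (by omega)] at g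
    exact h2 i j k l a b c e f g
  · rw [← h' i (by omega), ← h' j (by omega)] at d
    rw [← h' k (by omega), ← h' j (by omega)] at e
    exact h3 i j k a b d e
  · rw [← h' i (by omega), ← h' l (by omega)] at e
    rw [← h' l (by omega), ← h' j (by omega)] at f
    rw [← h' j (by omega), ← h' k (by omega)] at g
    exact h4 i j k l a b c e f g

/-- the function `i ↦ i + m` modulo `n` on the numbers below `n`, extended by fixed points -/
def rotf (n m : ℕ) (i : ℕ) : ℕ := if i < n then (if i + m < n then i + m else i + m - n) else i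

/-- the rotation as a permutation -/
def rot (n m : ℕ) : Perm ℕ :=
  if h : m < n then
    { toFun := rotf n m
      invFun := fun i => if i < n then (if i < m then i + n - m else i - m) else i
      left_inv := by
        intro i
        simp only [rotf]
        split_ifs <;> omega
      right_inv := by
        intro i
        simp only [rotf]
        split_ifs <;> omega }
  else 1

theorem rot_apply {n m : ℕ} (h : m < n) (i : ℕ) : rot n m i = rotf n m i := by
  simp only [rot, dif_pos h]
  rfl

theorem rotf_A3 {n m : ℕ} (h : m < n) : A3 (rotf n m) := by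
  intro i j k hij hjk h1 h2
  simp only [rotf] at h1 h2
  split_ifs at h1 h2 <;> omega

theorem rotf_A4 {n m : ℕ} (h : m < n) : A4 (rotf n m) := by
  intro i j k l hij hjk hkl h1 h2 h3
  simp only [rotf] at h1 h2 h3
  split_ifs at h1 h2 h3 <;> omega

theorem rotf_sq {n m : ℕ} (h : m < n) :
    (fun i => rotf n m (rotf n m i)) = rotf n (if 2 * m < n then 2 * m else 2 * m - n) := by
  funext i
  simp only [rotf]
  split_ifs <;> omega

theorem rot_mem {n m : ℕ} (h : m < n) : rot n m ∈ S n := by
  have e : (fun i => rot n m i) = rotf n m := funext fun i => rot_apply h i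
  have e2 : (fun i => rot n m (rot n m i)) =
      rotf n (if 2 * m < n then 2 * m else 2 * m - n) := by
    rw [← rotf_sq h]
    funext i
    rw [rot_apply h, rot_apply h]
  have h2 : (if 2 * m < n then 2 * m else 2 * m - n) < n := by
    split_ifs <;> omega
  refine ⟨fun i hi => ?_, ?_, ?_, ?_, ?_⟩
  · rw [rot_apply h]
    simp only [rotf]
    rw [if_neg (by omega)]
  · show A3 (fun i => rot n m i)
    rw [e]
    exact rotf_A3 h
  · show A4 (fun i => rot n m i)
    rw [e]
    exact rotf_A4 h
  · rw [e2]
    exact rotf_A3 h2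
  · rw [e2]
    exact rotf_A4 h2

/-- interchange of the last two points -/
def sw (n : ℕ) (τ : Perm ℕ) : Perm ℕ := τ * swap (n - 2) (n - 1)

theorem sw_inj (n : ℕ) : Function.Injective (sw n) := fun _ _ h => mul_right_cancel h

theorem sw_low {n : ℕ} (hn : 2 ≤ n) (τ : Perm ℕ) {i : ℕ} (hi : i < n - 2) : sw n τ i = τ i := by
  show τ (swap (n - 2) (n - 1) i) = τ i
  rw [swap_apply_of_ne_of_ne (by omega) (by omega)]

theorem sw_high {n : ℕ} (hn : 2 ≤ n) (τ : Perm ℕ) {i : ℕ} (hi : n ≤ i) : sw n τ i = τ i := by
  show τ (swap (n - 2) (n - 1) i) = τ i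
  rw [swap_apply_of_ne_of_ne (by omega) (by omega)]

theorem sw_left (n : ℕ) (τ : Perm ℕ) : sw n τ (n - 2) = τ (n - 1) := by
  show τ (swap (n - 2) (n - 1) (n - 2)) = τ (n - 1)
  rw [swap_apply_left]

theorem sw_right (n : ℕ) (τ : Perm ℕ) : sw n τ (n - 1) = τ (n - 2) := by
  show τ (swap (n - 2) (n - 1) (n - 1)) = τ (n - 2)
  rw [swap_apply_right]

theorem sw_mem {n : ℕ} (hn : 2 ≤ n) {τ : Perm ℕ} (hτ : τ ∈ S (n - 2)) : sw n τ ∈ S n := by
  have hf := hτ.1
  have hlow : ∀ i, i < n - 2 → τ i < n - 2 := fun i hi => lt_of_fix hf hi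
  have a1 : sw n τ (n - 2) = n - 1 := by rw [sw_left, hf _ (by omega)]
  have a2 : sw n τ (n - 1) = n - 2 := by rw [sw_right, hf _ (by omega)]
  have a3 : ∀ i, n ≤ i → sw n τ i = i := fun i hi => by rw [sw_high hn τ hi, hf i (by omega)]
  have hl : ∀ i, i < n → sw n τ i < n := fun i hi => lt_of_fix a3 hi
  have hcase : ∀ i, i < n → (i < n - 2 ∧ sw n τ i = τ i ∧ sw n τ i < n - 2) ∨
      (i = n - 2 ∧ sw n τ i = n - 1) ∨ (i = n - 1 ∧ sw n τ i = n - 2) := by
    intro i hi
    rcases Nat.lt_or_ge i (n - 2) with h | h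
    · left
      refine ⟨h, sw_low hn τ h, ?_⟩
      rw [sw_low hn τ h]
      exact hlow i h
    · right
      by_cases h1 : i = n - 2
      · left
        exact ⟨h1, by rw [h1]; exact a1⟩
      · right
        have h2 : i = n - 1 := by omega
        exact ⟨h2, by rw [h2]; exact a2⟩
  have hsq : (fun i => sw n τ (sw n τ i)) = fun i => τ (τ i) := by
    funext i
    rcases Nat.lt_or_ge i n with h | h
    · rcases hcase i h with ⟨h1, h2, h3⟩ | ⟨h1, h2⟩ | ⟨h1, h2⟩
      · rw [sw_low hn τ h3, h2]
      · rw [h2, a2, h1, hf _ le_rfl, hf _ le_rfl]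
      · rw [h2, a1, h1, hf (n - 1) (by omega), hf (n - 1) (by omega)]
    · rw [a3 i h, a3 i h, hf i (by omega), hf i (by omega)]
  obtain ⟨-, h3, h4, h33, h44⟩ := hτ
  refine ⟨a3, A3_of a3 hl fun i j k a b c d e => ?_, A4_of a3 hl fun i j k l a b c d e f g => ?_,
    by rw [hsq]; exact h33, by rw [hsq]; exact h44⟩
  · rcases hcase i (by omega) with ⟨i1, i2, i3⟩ | ⟨i1, i2⟩ | ⟨i1, i2⟩ <;>
    rcases hcase j (by omega) with ⟨j1, j2, j3⟩ | ⟨j1, j2⟩ | ⟨j1, j2⟩ <;>
    rcases hcase k (by omega) with ⟨k1, k2, k3⟩ | ⟨k1, k2⟩ | ⟨k1, k2⟩ <;>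
    first
    | omega
    | exact h3 i j k a b (by omega) (by omega)
  · rcases hcase i (by omega) with ⟨i1, i2, i3⟩ | ⟨i1, i2⟩ | ⟨i1, i2⟩ <;>
    rcases hcase j (by omega) with ⟨j1, j2, j3⟩ | ⟨j1, j2⟩ | ⟨j1, j2⟩ <;>
    rcases hcase k (by omega) with ⟨k1, k2, k3⟩ | ⟨k1, k2⟩ | ⟨k1, k2⟩ <;>
    rcases hcase l (by omega) with ⟨l1, l2, l3⟩ | ⟨l1, l2⟩ | ⟨l1, l2⟩ <;>
    first
    | omega
    | exact h4 i j k l a b c (by omega) (by omega) (by omega)

theorem S_mono {n : ℕ} : S (n - 1) ⊆ S n := fun _ h =>
  ⟨fun i hi => h.1 i (by omega), h.2⟩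

theorem S_eq {n : ℕ} (hn : 3 ≤ n) :
    S n = (S (n - 1) ∪ sw n '' S (n - 2)) ∪ rot n '' Set.Ioo 0 n := by
  ext σ
  constructor
  · intro h
    rcases structure_main hn h with h1 | ⟨h1, h2⟩ | ⟨m, hm0, hmn, hm⟩
    · left; left
      refine ⟨fun i hi => ?_, h.2⟩
      rcases Nat.lt_or_ge i n with h2 | h2
      · have : i = n - 1 := by omega
        rw [this]
        exact h1
      · exact h.1 i h2
    · left; right
      refine ⟨sw n σ, ?_, ?_⟩
      · refine mem_S_of (fun i hi => ?_) h (fun i hi => (sw_low (by omega) σ hi).symm)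
        by_cases a : i = n - 2
        · rw [a, sw_left]
          exact h1
        · by_cases b : i = n - 1
          · rw [b, sw_right]
            exact h2
          · rw [sw_high (by omega) σ (by omega)]
            exact h.1 i (by omega)
      · show σ * swap (n - 2) (n - 1) * swap (n - 2) (n - 1) = σ
        rw [mul_assoc, swap_mul_self, mul_one]
    · right
      refine ⟨m, ⟨hm0, hmn⟩, ?_⟩
      ext i
      rw [rot_apply hmn]
      simp only [rotf]
      split_ifs with a b
      · rw [hm i a, if_pos b]
      · rw [hm i a, if_neg b]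
      · exact (h.1 i (by omega)).symm
  · rintro ((h | ⟨τ, h, rfl⟩) | ⟨m, ⟨hm0, hmn⟩, rfl⟩)
    · exact S_mono h
    · exact sw_mem (by omega) h
    · exact rot_mem hmn

theorem rot_inj (n : ℕ) : Set.InjOn (rot n) (Set.Ioo 0 n) := by
  intro a ha b hb h
  have h1 : rot n a 0 = rot n b 0 := by rw [h]
  rw [rot_apply ha.2, rot_apply hb.2] at h1
  have := ha.2
  have := hb.2
  simp only [rotf] at h1
  split_ifs at h1 <;> omega

theorem S_finite_low {N : ℕ} (hN : N ≤ 2) : S N ⊆ {1, swap 0 1} := by
  intro σ h
  have hf := h.1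
  have h2 : ∀ i, 2 ≤ i → σ i = i := fun i hi => hf i (by omega)
  have a0 : σ 0 < 2 := lt_of_fix h2 (by omega)
  have a1 : σ 1 < 2 := lt_of_fix h2 (by omega)
  have a2 : σ 0 ≠ σ 1 := fun h => by
    have := σ.injective h
    omega
  rw [Set.mem_insert_iff, Set.mem_singleton_iff]
  by_cases h0 : σ 0 = 0
  · left
    ext i
    show σ i = i
    rcases Nat.lt_or_ge i 2 with hi | hi
    · interval_cases i
      · exact h0
      · omega
    · exact h2 i hi
  · right
    ext i
    rcases Nat.lt_or_ge i 2 with hi | hi
    · interval_cases i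
      · rw [swap_apply_left]
        omega
      · rw [swap_apply_right]
        omega
    · rw [swap_apply_of_ne_of_ne (by omega) (by omega)]
      exact h2 i hi

theorem S_finite (n : ℕ) : (S n).Finite := by
  induction n using Nat.strong_induction_on with
  | _ n ih =>
    rcases Nat.lt_or_ge 2 n with hn | hn
    · rw [S_eq hn]
      exact ((ih (n - 1) (by omega)).union ((ih (n - 2) (by omega)).image _)).union
        ((Set.finite_Ioo 0 n).image _)
    · exact Set.Finite.subset (by simp) (S_finite_low hn)

theorem ncard_rec {n : ℕ} (hn : 3 ≤ n) :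
    (S n).ncard = (S (n - 1)).ncard + (S (n - 2)).ncard + (n - 1) := by
  have d1 : Disjoint (S (n - 1)) (sw n '' S (n - 2)) := by
    rw [Set.disjoint_left]
    rintro _ h ⟨τ, hτ, rfl⟩
    have h1 := h.1 (n - 1) le_rfl
    rw [sw_right, hτ.1 _ le_rfl] at h1
    omega
  have d2 : Disjoint (S (n - 1) ∪ sw n '' S (n - 2)) (rot n '' Set.Ioo 0 n) := by
    rw [Set.disjoint_right]
    rintro _ ⟨m, ⟨hm0, hmn⟩, rfl⟩ (h | ⟨τ, hτ, h⟩)
    · have h1 := h.1 (n - 1) le_rfl
      rw [rot_apply hmn] at h1
      simp only [rotf] at h1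
      split_ifs at h1 <;> omega
    · have h1 : sw n τ (n - 1) = rot n m (n - 1) := by rw [h]
      have h2 : sw n τ (n - 2) = rot n m (n - 2) := by rw [h]
      rw [sw_right, hτ.1 _ le_rfl, rot_apply hmn] at h1
      rw [sw_left, hτ.1 (n - 1) (by omega), rot_apply hmn] at h2
      simp only [rotf] at h1 h2
      split_ifs at h1 h2 <;> omega
  have f1 := S_finite (n - 1)
  have f2 := (S_finite (n - 2)).image (sw n)
  have f3 := (Set.finite_Ioo 0 n).image (rot n)
  rw [S_eq hn, Set.ncard_union_eq d2 (f1.union f2) f3, Set.ncard_union_eq d1 f1 f2,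
    Set.ncard_image_of_injective _ (sw_inj n), Set.InjOn.ncard_image (rot_inj n)]
  congr 1
  rw [← Finset.coe_Ioo, Set.ncard_coe_finset, Nat.card_Ioo]
  omega

theorem one_mem (n : ℕ) : (1 : Perm ℕ) ∈ S n := by
  refine ⟨fun i _ => rfl, ?_, ?_, ?_, ?_⟩
  · intro i j k a b c d
    simp only [Perm.one_apply] at c d
    omega
  · intro i j k l a b c d e f
    simp only [Perm.one_apply] at d e f
    omega
  · intro i j k a b c d
    simp only [Perm.one_apply] at c d
    omega
  · intro i j k l a b c d e f
    simp only [Perm.one_apply] at d e f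
    omega

theorem ncard_one : (S 1).ncard = 1 := by
  rw [Set.ncard_eq_one]
  refine ⟨1, ?_⟩
  ext σ
  rw [Set.mem_singleton_iff]
  constructor
  · intro h
    rcases S_finite_low (by omega) h with h1 | h1
    · exact h1
    · rw [Set.mem_singleton_iff] at h1
      have h2 := h.1 1 le_rfl
      rw [h1, swap_apply_right] at h2
      omega
  · rintro rfl
    exact one_mem 1

theorem ncard_two : (S 2).ncard = 2 := by
  rw [Set.ncard_eq_two]
  refine ⟨1, swap 0 1, ?_, ?_⟩
  · intro h
    have : (1 : Perm ℕ) 0 = swap 0 1 0 := by rw [h]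
    rw [swap_apply_left, Perm.one_apply] at this
    omega
  · refine Set.Subset.antisymm (S_finite_low le_rfl) ?_
    rintro σ (rfl | h)
    · exact one_mem 2
    · rw [Set.mem_singleton_iff] at h
      have h1 : sw 2 1 = swap 0 1 := by
        show (1 : Perm ℕ) * swap (2 - 2) (2 - 1) = swap 0 1
        rw [one_mul]
      rw [h, ← h1]
      exact sw_mem le_rfl (one_mem 0)

theorem ncard_formula (n : ℕ) (hn : 1 ≤ n) : (S n).ncard + n + 2 = 2 * Nat.fib (n + 2) := by
  induction n using Nat.strong_induction_on with
  | _ n ih =>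
    by_cases h1 : n = 1
    · subst h1
      rw [ncard_one]
      rfl
    by_cases h2 : n = 2
    · subst h2
      rw [ncard_two]
      rfl
    have h3 : 3 ≤ n := by omega
    obtain ⟨k, rfl⟩ : ∃ k, n = k + 3 := ⟨n - 3, by omega⟩
    have a := ih (k + 2) (by omega) (by omega)
    have b := ih (k + 1) (by omega) (by omega)
    have c := ncard_rec h3
    have e : k + 3 - 1 = k + 2 := by omega
    have e' : k + 3 - 2 = k + 1 := by omega
    rw [e, e'] at c
    have f : Nat.fib (k + 3 + 2) = Nat.fib (k + 1 + 2) + Nat.fib (k + 2 + 2) := Nat.fib_add_two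
    omega

end counting

/-! ## Transfer to the symmetric groups -/

section transfer

variable {n : ℕ}

theorem contains3 (π : Perm (Fin n)) :
    Contains π ![3, 2, 1] ↔ ∃ i j k, i < j ∧ j < k ∧ π j < π i ∧ π k < π j := by
  constructor
  · rintro ⟨e, he, h⟩
    refine ⟨e 0, e 1, e 2, he (by decide), he (by decide), (h 1 0).mpr (by decide),
      (h 2 1).mpr (by decide)⟩
  · rintro ⟨i, j, k, h1, h2, h3, h4⟩
    refine ⟨![i, j, k], ?_, ?_⟩
    · intro a b hab
      fin_cases a <;> fin_cases b <;> simp at hab ⊢
      · exact h1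
      · exact h1.trans h2
      · exact h2
    · intro a b
      have h5 := h4.trans h3
      fin_cases a <;> fin_cases b <;> simp
      · exact h3.le
      · exact h5.le
      · exact h3
      · exact h4.le
      · exact h5
      · exact h4

theorem contains4 (π : Perm (Fin n)) :
    Contains π ![1, 3, 4, 2] ↔
      ∃ i j k l, i < j ∧ j < k ∧ k < l ∧ π i < π l ∧ π l < π j ∧ π j < π k := by
  constructor
  · rintro ⟨e, he, h⟩
    refine ⟨e 0, e 1, e 2, e 3, he (by decide), he (by decide), he (by decide),
      (h 0 3).mpr (by decide), (h 3 1).mpr (by decide), (h 1 2).mpr (by decide)⟩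
  · rintro ⟨i, j, k, l, h1, h2, h3, h4, h5, h6⟩
    refine ⟨![i, j, k, l], ?_, ?_⟩
    · intro a b hab
      fin_cases a <;> fin_cases b <;> simp at hab ⊢
      · exact h1
      · exact h1.trans h2
      · exact (h1.trans h2).trans h3
      · exact h2
      · exact h2.trans h3
      · exact h3
    · intro a b
      have e1 := h4.trans h5
      have e2 := e1.trans h6
      have e3 := h5.trans h6
      fin_cases a <;> fin_cases b <;> simp <;>
        first
        | assumption
        | exact e1.le
        | exact e2.le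
        | exact e3.le
        | exact h4.le
        | exact h5.le
        | exact h6.le

/-- the extension of a permutation of `Fin n` by fixed points -/
def ext (π : Perm (Fin n)) : Perm ℕ := π.extendDomain Fin.equivSubtype

theorem ext_apply (π : Perm (Fin n)) (i : Fin n) : ext π i = π i := by
  have := Perm.extendDomain_apply_image π (Fin.equivSubtype (n := n)) i
  exact this

theorem ext_apply' (π : Perm (Fin n)) {i : ℕ} (h : i < n) : ext π i = (π ⟨i, h⟩ : ℕ) :=
  ext_apply π ⟨i, h⟩

theorem ext_high (π : Perm (Fin n)) {i : ℕ} (hi : n ≤ i) : ext π i = i :=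
  Perm.extendDomain_apply_not_subtype _ _ (by omega)

theorem ext_mul (π ρ : Perm (Fin n)) : ext (π * ρ) = ext π * ext ρ :=
  (Perm.extendDomain_mul _ _ _).symm

theorem ext_inj : Function.Injective (ext (n := n)) := by
  intro π ρ h
  ext i
  have h1 := ext_apply π i
  rw [h, ext_apply] at h1
  exact h1.symm

theorem ext_A3 (π : Perm (Fin n)) : A3 (ext π) ↔ ¬ Contains π ![3, 2, 1] := by
  rw [contains3]
  constructor
  · rintro h ⟨i, j, k, h1, h2, h3, h4⟩
    refine h i j k h1 h2 ?_ ?_
    · rw [ext_apply, ext_apply]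
      exact h3
    · rw [ext_apply, ext_apply]
      exact h4
  · intro h
    refine A3_of (fun i hi => ext_high π hi) (fun i hi => lt_of_fix (fun i hi => ext_high π hi) hi)
      fun i j k a b c d e => h ⟨⟨i, by omega⟩, ⟨j, by omega⟩, ⟨k, c⟩, a, b, ?_, ?_⟩
    · rw [ext_apply' π (by omega), ext_apply' π (by omega)] at d
      exact d
    · rw [ext_apply' π (by omega), ext_apply' π (by omega)] at e
      exact e

theorem ext_A4 (π : Perm (Fin n)) : A4 (ext π) ↔ ¬ Contains π ![1, 3, 4, 2] := by
  rw [contains4]
  constructor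
  · rintro h ⟨i, j, k, l, h1, h2, h3, h4, h5, h6⟩
    refine h i j k l h1 h2 h3 ?_ ?_ ?_
    · rw [ext_apply, ext_apply]
      exact h4
    · rw [ext_apply, ext_apply]
      exact h5
    · rw [ext_apply, ext_apply]
      exact h6
  · intro h
    refine A4_of (fun i hi => ext_high π hi) (fun i hi => lt_of_fix (fun i hi => ext_high π hi) hi)
      fun i j k l a b c d e f g =>
        h ⟨⟨i, by omega⟩, ⟨j, by omega⟩, ⟨k, by omega⟩, ⟨l, d⟩, a, b, c, ?_, ?_, ?_⟩
    · rw [ext_apply' π (by omega), ext_apply' π (by omega)] at e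
      exact e
    · rw [ext_apply' π (by omega), ext_apply' π (by omega)] at f
      exact f
    · rw [ext_apply' π (by omega), ext_apply' π (by omega)] at g
      exact g

theorem ext_mem (π : Perm (Fin n)) : ext π ∈ S n ↔ π ∈ strong n := by
  have e : (fun i => ext π (ext π i)) = ext (π * π) := by
    funext i
    rw [ext_mul]
    rfl
  simp only [strong, Finset.mem_filter, Finset.mem_univ, true_and]
  show (_ ∧ A3 (ext π) ∧ A4 (ext π) ∧ A3 (fun i => ext π (ext π i)) ∧
    A4 (fun i => ext π (ext π i))) ↔ _
  rw [e, ext_A3, ext_A4, ext_A3, ext_A4]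
  constructor
  · rintro ⟨-, a, b, c, d⟩
    exact ⟨⟨a, b⟩, c, d⟩
  · rintro ⟨⟨a, b⟩, c, d⟩
    exact ⟨fun i hi => ext_high π hi, a, b, c, d⟩

theorem ext_surj {σ : Perm ℕ} (hf : ∀ i, n ≤ i → σ i = i) : ∃ π : Perm (Fin n), ext π = σ := by
  have hs : ∀ i, n ≤ i → σ.symm i = i := fun i hi => by
    have := hf i hi
    rw [Equiv.symm_apply_eq]
    exact this.symm
  refine ⟨⟨fun i => ⟨σ i, lt_of_fix hf i.2⟩, fun i => ⟨σ.symm i, lt_of_fix hs i.2⟩,
    fun i => ?_, fun i => ?_⟩, ?_⟩
  · ext
    simp
  · ext
    simp
  · ext i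
    rcases Nat.lt_or_ge i n with h | h
    · have := ext_apply (n := n) ⟨fun i => ⟨σ i, lt_of_fix hf i.2⟩,
        fun i => ⟨σ.symm i, lt_of_fix hs i.2⟩, fun i => by ext; simp, fun i => by ext; simp⟩ ⟨i, h⟩
      exact this
    · rw [ext_high _ h, hf i h]

theorem card_strong (n : ℕ) : (strong n).card = (S n).ncard := by
  have h : S n = ext '' (strong n : Set (Perm (Fin n))) := by
    ext σ
    constructor
    · intro h
      obtain ⟨π, rfl⟩ := ext_surj h.1
      exact ⟨π, Finset.mem_coe.mpr ((ext_mem π).mp h), rfl⟩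
    · rintro ⟨π, h, rfl⟩
      exact (ext_mem π).mpr (Finset.mem_coe.mp h)
  rw [h, Set.ncard_image_of_injective _ ext_inj, Set.ncard_coe_finset]

end transfer

/-- For every positive integer `n` the number of permutations of `n` elements which strongly avoid
`321` and `1342` is `2 F (n + 2) - n - 2`. -/
theorem result (n : ℕ) (hn : 1 ≤ n) :
    ((strong n).card : ℤ) = 2 * Nat.fib (n + 2) - n - 2 := by
  have h := ncard_formula n hn
  rw [← card_strong] at h
  omega

end Pool.Agent.Run7.h513.Kept.StrongAvoidance
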