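import Mathlib

/-!
# The tree stabbing number is not monotone

`S` consists of the origin and of two points on each of the three rays with directions `(1, 0)`,
`(0, 1)` and `(-1, -1)`.  The tree made of the three arms has stabbing number at most `2`, while
every spanning tree of the six points other than the origin is stabbed three times by a line.
-/

namespace Pool.Agent.Run7.h513.Kept.TreeStabNotMonotone

/-- The points of the plane. -/
abbrev Pt : Type := ℝ × ℝ

/-- Straight lines of the plane. -/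
def IsLine (l : Set Pt) : Prop :=
  ∃ a b c : ℝ, (a ≠ 0 ∨ b ≠ 0) ∧ l = {z | a * z.1 + b * z.2 = c}

/-- The line `l` stabs the closed segment between `p` and `q`. -/
def Stabs (l : Set Pt) (p q : Pt) : Prop :=
  ∃ z, l ∩ segment ℝ p q = {z} ∧ z ∈ openSegment ℝ p q

/-- The edges of `T` that are stabbed by `l`. -/
def stabbed {S : Finset Pt} (T : SimpleGraph S) (l : Set Pt) : Set (Sym2 S) :=
  {e | ∃ p q : S, e = s(p, q) ∧ T.Adj p q ∧ Stabs l p q}

/-- The stabbing number of `T`. -/
noncomputable def stabNumber {S : Finset Pt} (T : SimpleGraph S) : ℕ :=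
  sSup {n | ∃ l, IsLine l ∧ (stabbed T l).ncard = n}

/-- The tree stabbing number of the configuration `S`. -/
noncomputable def treeStab (S : Finset Pt) : ℕ :=
  sInf {n | ∃ T : SimpleGraph S, T.IsTree ∧ stabNumber T = n}

lemma stabs_iff (a b c : ℝ) {p q : Pt} (hpq : p ≠ q) :
    Stabs {z | a * z.1 + b * z.2 = c} p q ↔
      (a * p.1 + b * p.2 - c) * (a * q.1 + b * q.2 - c) < 0 := by
  set f : Pt → ℝ := fun z => a * z.1 + b * z.2 - c with hf
  have hcomb : ∀ s t : ℝ, s + t = 1 → f (s • p + t • q) = s * f p + t * f q := by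
    intro s t hst
    simp only [hf, Prod.fst_add, Prod.snd_add, Prod.smul_fst, Prod.smul_snd, smul_eq_mul]
    linear_combination c * hst
  have hmem : ∀ z : Pt, z ∈ {z : Pt | a * z.1 + b * z.2 = c} ↔ f z = 0 := by
    intro z
    simp only [hf, Set.mem_ofPred_eq]
    constructor
    · intro h
      linarith
    · intro h
      linarith
  change Stabs {z | a * z.1 + b * z.2 = c} p q ↔ f p * f q < 0
  constructor
  · rintro ⟨z, hz, hzo⟩
    have hzl : f z = 0 := by
      have : z ∈ {z : Pt | a * z.1 + b * z.2 = c} ∩ segment ℝ p q := by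
        rw [hz]
        exact Set.mem_singleton z
      exact (hmem z).1 this.1
    obtain ⟨s, t, hs, ht, hst, rfl⟩ := hzo
    rw [hcomb s t hst] at hzl
    by_contra hcon
    push Not at hcon
    have hp0 : f p = 0 := by
      by_contra hp
      rcases lt_or_gt_of_ne hp with h | h
      · have h2 : f q ≤ 0 := by
          by_contra hq
          push Not at hq
          have := mul_neg_of_neg_of_pos h hq
          linarith
        nlinarith
      · have h2 : 0 ≤ f q := by
          by_contra hq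
          push Not at hq
          have := mul_neg_of_pos_of_neg h hq
          linarith
        nlinarith
    have hq0 : f q = 0 := by
      rw [hp0, mul_zero, zero_add] at hzl
      rcases mul_eq_zero.mp hzl with h | h
      · exact absurd h ht.ne'
      · exact h
    -- both endpoints are on the line, hence equal to the unique point
    have h1 : p ∈ ({s • p + t • q} : Set Pt) := by
      rw [← hz]
      exact ⟨(hmem p).2 hp0, left_mem_segment ℝ p q⟩
    have h2 : q ∈ ({s • p + t • q} : Set Pt) := by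
      rw [← hz]
      exact ⟨(hmem q).2 hq0, right_mem_segment ℝ p q⟩
    rw [Set.mem_singleton_iff] at h1 h2
    exact hpq (h1.trans h2.symm)
  · intro h
    have hne : f p - f q ≠ 0 := by
      intro h0
      have : f p = f q := by linarith
      rw [this] at h
      exact absurd h (not_lt.mpr (mul_self_nonneg _))
    set t : ℝ := f p / (f p - f q) with ht
    have ht' : t * (f p - f q) = f p := div_mul_cancel₀ _ hne
    have hsq : 0 < (f p - f q) * (f p - f q) := mul_self_pos.mpr hne
    have ht0 : 0 < t := by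
      have h1 : 0 < t * ((f p - f q) * (f p - f q)) := by
        rw [← mul_assoc, ht']
        nlinarith [mul_self_nonneg (f p)]
      exact (pos_iff_pos_of_mul_pos h1).2 hsq
    have ht1 : 0 < 1 - t := by
      have h1 : 0 < (1 - t) * ((f p - f q) * (f p - f q)) := by
        have : (1 - t) * ((f p - f q) * (f p - f q))
            = (f p - f q) * (f p - f q) - (t * (f p - f q)) * (f p - f q) := by ring
        rw [this, ht']
        nlinarith [mul_self_nonneg (f q)]
      exact (pos_iff_pos_of_mul_pos h1).2 hsq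
    refine ⟨(1 - t) • p + t • q, ?_, ⟨1 - t, t, ht1, ht0, by ring, rfl⟩⟩
    ext w
    rw [Set.mem_inter_iff, Set.mem_singleton_iff, hmem]
    constructor
    · rintro ⟨hw, s', t', hs', ht'', hst, rfl⟩
      rw [hcomb s' t' hst] at hw
      have h1 : t' = t := by
        have h2 : t' * (f p - f q) = t * (f p - f q) := by
          rw [ht']
          have : s' = 1 - t' := by linarith
          rw [this] at hw
          linarith
        exact mul_right_cancel₀ hne h2
      have h3 : s' = 1 - t := by linarith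
      rw [h1, h3]
    · rintro rfl
      refine ⟨?_, 1 - t, t, ht1.le, ht0.le, by ring, rfl⟩
      rw [hcomb (1 - t) t (by ring)]
      linarith

/-! ### The seven points -/

/-- The first coordinates. -/
def X : Fin 7 → ℤ := ![1, 2, 0, 0, -1, -2, 0]

/-- The second coordinates. -/
def Y : Fin 7 → ℤ := ![0, 0, 1, 2, -1, -2, 0]

/-- The seven points; the last one is the origin. -/
noncomputable def P (i : Fin 7) : Pt := ((X i : ℝ), (Y i : ℝ))

lemma P_inj : Function.Injective P := by
  intro i j h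
  have h1 : X i = X j := by
    have := congrArg Prod.fst h
    simpa [P] using this
  have h2 : Y i = Y j := by
    have := congrArg Prod.snd h
    simpa [P] using this
  have key : ∀ i j : Fin 7, X i = X j → Y i = Y j → i = j := by decide
  exact key i j h1 h2

/-- The configuration of seven points. -/
noncomputable def S7 : Finset Pt := Finset.univ.image P

/-- The first six indices. -/
def up (i : Fin 6) : Fin 7 := i.castSucc

/-- The configuration without the origin. -/
noncomputable def S6 : Finset Pt := Finset.univ.image fun i : Fin 6 => P (up i)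

lemma P6_inj : Function.Injective fun i : Fin 6 => P (up i) := by
  intro i j h
  have := P_inj h
  exact Fin.castSucc_injective 6 this

/-- Indexing of the seven points. -/
noncomputable def e7 : Fin 7 ≃ S7 :=
  Equiv.ofBijective (fun i => ⟨P i, Finset.mem_image_of_mem P (Finset.mem_univ i)⟩) (by
    constructor
    · intro i j h
      exact P_inj (congrArg Subtype.val h)
    · rintro ⟨p, hp⟩
      obtain ⟨i, -, rfl⟩ := Finset.mem_image.1 hp
      exact ⟨i, rfl⟩)

/-- Indexing of the six points. -/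
noncomputable def e6 : Fin 6 ≃ S6 :=
  Equiv.ofBijective (fun i => ⟨P (up i),
    Finset.mem_image_of_mem (fun i : Fin 6 => P (up i)) (Finset.mem_univ i)⟩) (by
    constructor
    · intro i j h
      exact P6_inj (congrArg Subtype.val h)
    · rintro ⟨p, hp⟩
      obtain ⟨i, -, rfl⟩ := Finset.mem_image.1 hp
      exact ⟨i, rfl⟩)

lemma e7_val (i : Fin 7) : (e7 i : Pt) = P i := rfl

lemma e6_val (i : Fin 6) : (e6 i : Pt) = P (up i) := rfl

/-! ### Upper bound -/

/-- The three arms. -/
def T7 : SimpleGraph (Fin 7) := SimpleGraph.fromRel fun i j =>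
  (i, j) ∈ ([(6, 0), (0, 1), (6, 2), (2, 3), (6, 4), (4, 5)] : List (Fin 7 × Fin 7))

instance : DecidableRel T7.Adj := fun i j => by
  unfold T7
  rw [SimpleGraph.fromRel_adj]
  infer_instance

lemma T7_tree : T7.IsTree := by
  rw [SimpleGraph.isTree_iff_connected_and_card]
  constructor
  · have h0 : T7.Reachable 6 0 := (show T7.Adj 6 0 by decide).reachable
    have h1 : T7.Reachable 6 1 := h0.trans (show T7.Adj 0 1 by decide).reachable
    have h2 : T7.Reachable 6 2 := (show T7.Adj 6 2 by decide).reachable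
    have h3 : T7.Reachable 6 3 := h2.trans (show T7.Adj 2 3 by decide).reachable
    have h4 : T7.Reachable 6 4 := (show T7.Adj 6 4 by decide).reachable
    have h5 : T7.Reachable 6 5 := h4.trans (show T7.Adj 4 5 by decide).reachable
    have hall : ∀ i, T7.Reachable 6 i := by
      intro i
      fin_cases i
      · exact h0
      · exact h1
      · exact h2
      · exact h3
      · exact h4
      · exact h5
      · exact SimpleGraph.Reachable.refl _
    have : Nonempty (Fin 7) := ⟨0⟩
    exact SimpleGraph.Connected.mk fun i j => (hall i).symm.trans (hall j)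
  · rw [Nat.card_eq_fintype_card, ← SimpleGraph.edgeFinset_card, Nat.card_eq_fintype_card]
    decide

lemma T7_cases : ∀ i j : Fin 7, T7.Adj i j →
    ((i = 6 ∧ j = 0) ∨ (i = 0 ∧ j = 6)) ∨ ((i = 0 ∧ j = 1) ∨ (i = 1 ∧ j = 0)) ∨
      ((i = 6 ∧ j = 2) ∨ (i = 2 ∧ j = 6)) ∨ ((i = 2 ∧ j = 3) ∨ (i = 3 ∧ j = 2)) ∨
      ((i = 6 ∧ j = 4) ∨ (i = 4 ∧ j = 6)) ∨ ((i = 4 ∧ j = 5) ∨ (i = 5 ∧ j = 4)) := by
  decide

/-- The three arms as a graph on the seven points. -/
noncomputable def arms : SimpleGraph S7 := T7.comap e7.symm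

lemma arms_tree : arms.IsTree := (SimpleGraph.Iso.comap e7.symm T7).isTree_iff.2 T7_tree

lemma arms_stabbed (a b c : ℝ) :
    (stabbed arms {z | a * z.1 + b * z.2 = c}).ncard ≤ 2 := by
  -- the values of the affine function at the seven points
  set g : Fin 7 → ℝ := fun i => a * (X i : ℝ) + b * (Y i : ℝ) - c with hg
  have hsub : stabbed arms {z | a * z.1 + b * z.2 = c} ⊆
      {e | (e = s(e7 6, e7 0) ∧ g 6 * g 0 < 0) ∨ (e = s(e7 0, e7 1) ∧ g 0 * g 1 < 0) ∨
        (e = s(e7 6, e7 2) ∧ g 6 * g 2 < 0) ∨ (e = s(e7 2, e7 3) ∧ g 2 * g 3 < 0) ∨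
        (e = s(e7 6, e7 4) ∧ g 6 * g 4 < 0) ∨ (e = s(e7 4, e7 5) ∧ g 4 * g 5 < 0)} := by
    rintro e ⟨p, q, rfl, hpq, hst⟩
    obtain ⟨i, rfl⟩ := e7.surjective p
    obtain ⟨j, rfl⟩ := e7.surjective q
    have hij : T7.Adj i j := by simpa [arms] using hpq
    have hne : (e7 i : Pt) ≠ (e7 j : Pt) := by
      intro h
      exact hij.ne (e7.injective (Subtype.ext h))
    rw [stabs_iff a b c hne] at hst
    have hprod : g i * g j < 0 := hst
    have hprod' : g j * g i < 0 := by rw [mul_comm]; exact hprod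
    have hcases := T7_cases i j hij
    rcases hcases with (⟨rfl, rfl⟩ | ⟨rfl, rfl⟩) | (⟨rfl, rfl⟩ | ⟨rfl, rfl⟩) |
        (⟨rfl, rfl⟩ | ⟨rfl, rfl⟩) | (⟨rfl, rfl⟩ | ⟨rfl, rfl⟩) |
        (⟨rfl, rfl⟩ | ⟨rfl, rfl⟩) | (⟨rfl, rfl⟩ | ⟨rfl, rfl⟩)
    · exact Or.inl ⟨rfl, hprod⟩
    · exact Or.inl ⟨Sym2.eq_swap, hprod'⟩
    · exact Or.inr (Or.inl ⟨rfl, hprod⟩)
    · exact Or.inr (Or.inl ⟨Sym2.eq_swap, hprod'⟩)
    · exact Or.inr (Or.inr (Or.inl ⟨rfl, hprod⟩))
    · exact Or.inr (Or.inr (Or.inl ⟨Sym2.eq_swap, hprod'⟩))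
    · exact Or.inr (Or.inr (Or.inr (Or.inl ⟨rfl, hprod⟩)))
    · exact Or.inr (Or.inr (Or.inr (Or.inl ⟨Sym2.eq_swap, hprod'⟩)))
    · exact Or.inr (Or.inr (Or.inr (Or.inr (Or.inl ⟨rfl, hprod⟩))))
    · exact Or.inr (Or.inr (Or.inr (Or.inr (Or.inl ⟨Sym2.eq_swap, hprod'⟩))))
    · exact Or.inr (Or.inr (Or.inr (Or.inr (Or.inr ⟨rfl, hprod⟩))))
    · exact Or.inr (Or.inr (Or.inr (Or.inr (Or.inr ⟨Sym2.eq_swap, hprod'⟩))))
  have g6 : g 6 = -c := by simp [hg, X, Y]
  have g0 : g 0 = a - c := by simp [hg, X, Y]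
  have g1 : g 1 = 2 * a - c := by simp [hg, X, Y]; ring
  have g2 : g 2 = b - c := by simp [hg, X, Y]
  have g3 : g 3 = 2 * b - c := by simp [hg, X, Y]; ring
  have g4 : g 4 = -a - b - c := by simp [hg, X, Y]; ring
  have g5 : g 5 = -2 * a - 2 * b - c := by simp [hg, X, Y]; ring
  rw [g6, g0, g1, g2, g3, g4, g5] at hsub
  -- at most one edge of each arm
  have one1 : ¬ ((-c) * (a - c) < 0 ∧ (a - c) * (2 * a - c) < 0) := by
    rintro ⟨h1, h2⟩
    nlinarith [mul_self_nonneg (a - c)]
  have one2 : ¬ ((-c) * (b - c) < 0 ∧ (b - c) * (2 * b - c) < 0) := by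
    rintro ⟨h1, h2⟩
    nlinarith [mul_self_nonneg (b - c)]
  have one3 : ¬ ((-c) * (-a - b - c) < 0 ∧ (-a - b - c) * (-2 * a - 2 * b - c) < 0) := by
    rintro ⟨h1, h2⟩
    nlinarith [mul_self_nonneg (-a - b - c)]
  have pos1 : (-c) * (a - c) < 0 ∨ (a - c) * (2 * a - c) < 0 → 0 < a * c := by
    rintro (h | h)
    · nlinarith [mul_self_nonneg c]
    · nlinarith [mul_self_nonneg c, mul_self_nonneg a]
  have pos2 : (-c) * (b - c) < 0 ∨ (b - c) * (2 * b - c) < 0 → 0 < b * c := by
    rintro (h | h)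
    · nlinarith [mul_self_nonneg c]
    · nlinarith [mul_self_nonneg c, mul_self_nonneg b]
  have pos3 : (-c) * (-a - b - c) < 0 ∨ (-a - b - c) * (-2 * a - 2 * b - c) < 0 →
      0 < -(a + b) * c := by
    rintro (h | h)
    · nlinarith [mul_self_nonneg c]
    · nlinarith [mul_self_nonneg c, mul_self_nonneg (a + b)]
  have hpair : ∀ x y : Sym2 S7, stabbed arms {z | a * z.1 + b * z.2 = c} ⊆ {x, y} →
      (stabbed arms {z | a * z.1 + b * z.2 = c}).ncard ≤ 2 := by
    intro x y h
    calc (stabbed arms {z | a * z.1 + b * z.2 = c}).ncard ≤ ({x, y} : Set (Sym2 S7)).ncard :=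
          Set.ncard_le_ncard h (Set.toFinite _)
      _ ≤ ({y} : Set (Sym2 S7)).ncard + 1 := Set.ncard_insert_le _ _
      _ = 2 := by rw [Set.ncard_singleton]
  by_cases A1 : (-c) * (a - c) < 0 ∨ (a - c) * (2 * a - c) < 0
  · by_cases A2 : (-c) * (b - c) < 0 ∨ (b - c) * (2 * b - c) < 0
    · have A3 : ¬ ((-c) * (-a - b - c) < 0 ∨ (-a - b - c) * (-2 * a - 2 * b - c) < 0) := by
        intro h
        have h1 := pos1 A1
        have h2 := pos2 A2
        have h3 := pos3 h
        nlinarith
      rw [not_or] at A3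
      apply hpair (if (-c) * (a - c) < 0 then s(e7 6, e7 0) else s(e7 0, e7 1))
        (if (-c) * (b - c) < 0 then s(e7 6, e7 2) else s(e7 2, e7 3))
      intro e he
      rcases hsub he with ⟨rfl, h⟩ | ⟨rfl, h⟩ | ⟨rfl, h⟩ | ⟨rfl, h⟩ | ⟨rfl, h⟩ | ⟨rfl, h⟩
      · left; rw [if_pos h]
      · left; rw [if_neg (fun h' => one1 ⟨h', h⟩)]
      · right; rw [if_pos h]; exact Set.mem_singleton _
      · right; rw [if_neg (fun h' => one2 ⟨h', h⟩)]; exact Set.mem_singleton _
      · exact absurd h A3.1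
      · exact absurd h A3.2
    · rw [not_or] at A2
      apply hpair (if (-c) * (a - c) < 0 then s(e7 6, e7 0) else s(e7 0, e7 1))
        (if (-c) * (-a - b - c) < 0 then s(e7 6, e7 4) else s(e7 4, e7 5))
      intro e he
      rcases hsub he with ⟨rfl, h⟩ | ⟨rfl, h⟩ | ⟨rfl, h⟩ | ⟨rfl, h⟩ | ⟨rfl, h⟩ | ⟨rfl, h⟩
      · left; rw [if_pos h]
      · left; rw [if_neg (fun h' => one1 ⟨h', h⟩)]
      · exact absurd h A2.1
      · exact absurd h A2.2
      · right; rw [if_pos h]; exact Set.mem_singleton _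
      · right; rw [if_neg (fun h' => one3 ⟨h', h⟩)]; exact Set.mem_singleton _
  · rw [not_or] at A1
    apply hpair (if (-c) * (b - c) < 0 then s(e7 6, e7 2) else s(e7 2, e7 3))
      (if (-c) * (-a - b - c) < 0 then s(e7 6, e7 4) else s(e7 4, e7 5))
    intro e he
    rcases hsub he with ⟨rfl, h⟩ | ⟨rfl, h⟩ | ⟨rfl, h⟩ | ⟨rfl, h⟩ | ⟨rfl, h⟩ | ⟨rfl, h⟩
    · exact absurd h A1.1
    · exact absurd h A1.2
    · left; rw [if_pos h]
    · left; rw [if_neg (fun h' => one2 ⟨h', h⟩)]
    · right; rw [if_pos h]; exact Set.mem_singleton _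
    · right; rw [if_neg (fun h' => one3 ⟨h', h⟩)]; exact Set.mem_singleton _

lemma stabNumber_bdd {S : Finset Pt} (T : SimpleGraph S) :
    BddAbove {n | ∃ l, IsLine l ∧ (stabbed T l).ncard = n} := by
  refine ⟨Nat.card (Sym2 S), ?_⟩
  rintro n ⟨l, -, rfl⟩
  rw [← Set.ncard_univ]
  exact Set.ncard_le_ncard (Set.subset_univ _) (Set.toFinite _)

lemma treeStab_S7 : treeStab S7 ≤ 2 := by
  have h1 : stabNumber arms ≤ 2 := by
    apply csSup_le
    · exact ⟨_, {z | (1 : ℝ) * z.1 + (0 : ℝ) * z.2 = 0}, ⟨1, 0, 0, by norm_num, rfl⟩, rfl⟩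
    · rintro n ⟨l, ⟨a, b, c, -, rfl⟩, rfl⟩
      exact arms_stabbed a b c
  have h2 : stabNumber arms ∈ {n | ∃ T : SimpleGraph S7, T.IsTree ∧ stabNumber T = n} :=
    ⟨arms, arms_tree, rfl⟩
  exact (Nat.sInf_le h2).trans h1

/-! ### Lower bound -/

/-- The four separations, as bit masks, with the coefficients of a line. -/
def mask : Fin 4 → ℕ := ![52, 56, 34, 44]

/-- Coefficients of the lines. -/
def cA : Fin 4 → ℤ := ![-4, -6, -2, -6]

/-- Coefficients of the lines. -/
def cB : Fin 4 → ℤ := ![-2, 2, 4, 4]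

/-- Coefficients of the lines. -/
def cC : Fin 4 → ℤ := ![-3, 3, -3, 3]

lemma cA_ne : ∀ k : Fin 4, cA k ≠ 0 := by decide

lemma sep (k : Fin 4) (i j : Fin 6) (h : (mask k).testBit i ≠ (mask k).testBit j) :
    (cA k * X (up i) + cB k * Y (up i) - cC k) * (cA k * X (up j) + cB k * Y (up j) - cC k)
      < 0 := by
  revert k i j
  decide

/-- The number of edges of the rooted tree `(q 1, ..., q 5)` that cross the separation `m`. -/
def cr (m : ℕ) (q : Fin 6 → Fin 6) : ℕ :=
  (Finset.univ.filter fun v : Fin 6 => v ≠ 0 ∧ m.testBit v ≠ m.testBit (q v)).card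

/-- The check for all parent functions. -/
lemma check : ∀ a b c d e : Fin 6,
    (∀ v : Fin 6, (![0, a, b, c, d, e] : Fin 6 → Fin 6)^[6] v = 0) →
      ∃ k : Fin 4, 3 ≤ cr (mask k) ![0, a, b, c, d, e] := by
  decide +kernel

lemma exists_parent {V : Type} {T : SimpleGraph V} (hT : T.IsTree) (r : V) {v : V}
    (hv : v ≠ r) : ∃ u, T.Adj u v ∧ T.dist r v = T.dist r u + 1 := by
  obtain ⟨p, hp, hpl⟩ := hT.connected.exists_path_of_dist v r
  cases p with
  | nil => exact absurd rfl hv
  | @cons _ u _ h q =>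
    refine ⟨u, h.symm, ?_⟩
    have h1 : T.dist u r ≤ q.length := SimpleGraph.dist_le q
    rw [SimpleGraph.Walk.length_cons] at hpl
    rw [SimpleGraph.dist_comm] at h1 hpl
    rcases hT.dist_eq_dist_add_one_of_adj r h with h2 | h2
    · exact h2
    · omega

lemma tree_cross (T : SimpleGraph (Fin 6)) (hT : T.IsTree) :
    ∃ (q : Fin 6 → Fin 6) (k : Fin 4), (∀ v, v ≠ 0 → T.Adj (q v) v ∧
      T.dist 0 v = T.dist 0 (q v) + 1) ∧ 3 ≤ cr (mask k) q := by
  classical
  have hex : ∀ v : Fin 6, ∃ u, (v ≠ 0 → T.Adj u v ∧ T.dist 0 v = T.dist 0 u + 1) ∧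
      (v = 0 → u = 0) := by
    intro v
    by_cases hv : v = 0
    · exact ⟨0, fun h => absurd hv h, fun _ => rfl⟩
    · obtain ⟨u, hu⟩ := exists_parent hT 0 hv
      exact ⟨u, fun _ => hu, fun h => absurd h hv⟩
  choose q hq1 hq0 using hex
  have hq00 : q 0 = 0 := hq0 0 rfl
  have hiter : ∀ (n : ℕ) (v : Fin 6), T.dist 0 v ≤ n → q^[n] v = 0 := by
    intro n
    induction n with
    | zero =>
      intro v hv
      have h1 : T.dist 0 v = 0 := by omega
      rw [hT.connected.dist_eq_zero_iff] at h1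
      simp [h1]
    | succ n ih =>
      intro v hv
      rw [Function.iterate_succ_apply]
      by_cases hv0 : v = 0
      · rw [hv0, hq00]
        apply ih
        simp
      · apply ih
        have := (hq1 v hv0).2
        omega
  have hdist : ∀ v : Fin 6, T.dist 0 v ≤ 6 := by
    intro v
    obtain ⟨p, hp, hpl⟩ := hT.connected.exists_path_of_dist 0 v
    have := hp.length_lt
    rw [Fintype.card_fin] at this
    omega
  have hqv : (![0, q 1, q 2, q 3, q 4, q 5] : Fin 6 → Fin 6) = q := by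
    funext v
    fin_cases v
    · exact hq00.symm
    · rfl
    · rfl
    · rfl
    · rfl
    · rfl
  obtain ⟨k, hk⟩ := check (q 1) (q 2) (q 3) (q 4) (q 5) (by
    rw [hqv]
    intro v
    exact hiter 6 v (hdist v))
  rw [hqv] at hk
  exact ⟨q, k, hq1, hk⟩

lemma treeStab_S6 : 3 ≤ treeStab S6 := by
  classical
  have hne : {n | ∃ T : SimpleGraph S6, T.IsTree ∧ stabNumber T = n}.Nonempty := by
    have : Nonempty S6 := ⟨e6 0⟩
    obtain ⟨T, -, hT⟩ := (SimpleGraph.connected_top (V := S6)).exists_isTree_le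
    exact ⟨_, T, hT, rfl⟩
  apply le_csInf hne
  rintro n ⟨T, hT, rfl⟩
  have hT6 : (T.comap e6).IsTree := (SimpleGraph.Iso.comap e6 T).isTree_iff.2 hT
  obtain ⟨q, k, hq, hk⟩ := tree_cross _ hT6
  set l : Set Pt := {z | (cA k : ℝ) * z.1 + (cB k : ℝ) * z.2 = (cC k : ℝ)} with hl
  have hline : IsLine l := by
    refine ⟨cA k, cB k, cC k, Or.inl ?_, rfl⟩
    exact_mod_cast cA_ne k
  have hcard : 3 ≤ (stabbed T l).ncard := by
    refine hk.trans ?_
    rw [cr, ← Set.ncard_coe_finset]
    apply Set.ncard_le_ncard_of_injOn (fun v => s(e6 (q v), e6 v))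
    · intro v hv
      simp only [Finset.coe_filter, Finset.mem_univ, true_and, Set.mem_ofPred_eq] at hv
      obtain ⟨hv0, hm⟩ := hv
      refine ⟨e6 (q v), e6 v, rfl, (hq v hv0).1, ?_⟩
      have hadj : T.Adj (e6 (q v)) (e6 v) := (hq v hv0).1
      have hne : (e6 (q v) : Pt) ≠ (e6 v : Pt) := by
        intro h
        exact hadj.ne (Subtype.ext h)
      rw [hl, stabs_iff _ _ _ hne]
      have h1 := sep k (q v) v (Ne.symm hm)
      have h2 : (((cA k * X (up (q v)) + cB k * Y (up (q v)) - cC k) *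
        (cA k * X (up v) + cB k * Y (up v) - cC k) : ℤ) : ℝ) < 0 := by exact_mod_cast h1
      push_cast at h2
      exact h2
    · intro v hv w hw h
      simp only [Finset.coe_filter, Finset.mem_univ, true_and, Set.mem_ofPred_eq] at hv hw
      simp only [Sym2.eq_iff] at h
      rcases h with ⟨-, h⟩ | ⟨h1, h2⟩
      · exact e6.injective h
      · exfalso
        have h3 : q v = w := e6.injective h1
        have h4 : v = q w := e6.injective h2
        have h5 := (hq v hv.1).2
        have h6 := (hq w hw.1).2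
        rw [h3] at h5
        rw [← h4] at h6
        omega
  exact hcard.trans (le_csSup (stabNumber_bdd T) ⟨l, hline, rfl⟩)

/-- The tree stabbing number is not monotone: a configuration of seven points with tree stabbing
number at most `2` has a subconfiguration of six points with tree stabbing number at least `3`. -/
theorem result : ∃ S S' : Finset Pt, S.card = 7 ∧ S'.card = 6 ∧ S' ⊆ S ∧
    treeStab S ≤ 2 ∧ 3 ≤ treeStab S' := by
  refine ⟨S7, S6, ?_, ?_, ?_, treeStab_S7, treeStab_S6⟩
  · rw [S7, Finset.card_image_of_injective _ P_inj]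
    simp
  · rw [S6, Finset.card_image_of_injective _ P6_inj]
    simp
  · intro p hp
    obtain ⟨i, -, rfl⟩ := Finset.mem_image.1 hp
    exact Finset.mem_image_of_mem P (Finset.mem_univ _)

end Pool.Agent.Run7.h513.Kept.TreeStabNotMonotone
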